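import Pool.Agent.H560_K2.Sum
import Pool.Agent.H560_K2.Eng

set_option autoImplicit false

namespace Pool.Agent.H560_K2

open MeasureTheory Finset Filter

lemma window (f : ℕ → ℝ) (hf : ∀ q, 0 ≤ f q) (hf1 : ∀ q, f q ≤ 1) (hdiv : ¬ Summable f) (K : ℕ) :
    ∃ n, 1 ≤ ∑ q ∈ Ico K n, f q ∧ ∑ q ∈ Ico K n, f q ≤ 2 := by
  classical
  have hex : ∃ n, 1 ≤ ∑ q ∈ Ico K n, f q := by
    have h := (not_summable_iff_tendsto_nat_atTop_of_nonneg hf).1 hdiv
    obtain ⟨n, hn, hKn⟩ := ((h.eventually_ge_atTop (1 + ∑ q ∈ range K, f q)).and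
      (eventually_ge_atTop K)).exists
    refine ⟨n, ?_⟩
    have := sum_range_add_sum_Ico f hKn
    linarith
  refine ⟨Nat.find hex, Nat.find_spec hex, ?_⟩
  have h1 := Nat.find_spec hex
  rcases Nat.lt_or_ge K (Nat.find hex) with h | h
  · obtain ⟨m, hm⟩ : ∃ m, Nat.find hex = m + 1 := ⟨Nat.find hex - 1, by omega⟩
    have h2 := Nat.find_min hex (m := m) (by omega)
    rw [hm, Finset.sum_Ico_succ_top (by omega)]
    have := hf1 m
    linarith
  · rw [Finset.Ico_eq_empty (by omega), Finset.sum_empty] at h1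
    linarith

lemma nn_symm (y : ℝ × ℝ) (ψ : ℕ → ℝ) (q r : ℕ) : nn y ψ q r = nn y ψ r q := by
  classical
  have key : ∀ q r : ℕ, nn y ψ q r ≤ nn y ψ r q := by
    intro q r
    unfold nn
    refine card_le_card_of_injOn (fun z => (z.2, z.1)) ?_ ?_
    · intro z hz
      rw [mem_coe, mem_filter, mem_product] at hz
      obtain ⟨⟨h1, h2⟩, h3, h4⟩ := hz
      rw [mem_coe, mem_filter, mem_product]
      refine ⟨⟨h2, h1⟩, ?_, ?_⟩
      · rw [abs_sub_comm, add_comm (ψ r / r)]; exact h3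
      · rw [abs_sub_comm, add_comm (ψ r / r)]; exact h4
    · intro z _ z' _ h
      simp only [Prod.mk.injEq] at h
      exact Prod.ext h.2 h.1
  exact le_antisymm (key q r) (key r q)

lemma tt_symm (y : ℝ × ℝ) (ψ : ℕ → ℝ) (q r : ℕ) : tt y ψ q r = tt y ψ r q := by
  unfold tt
  rw [nn_symm, min_comm]

lemma num_card (z : ℝ) (q : ℕ) : #(num z q) = q := by
  unfold num
  rw [Int.card_Ico]; simp

lemma tt_diag (y : ℝ × ℝ) (ψ : ℕ → ℝ) (hψ : ∀ q, 0 ≤ ψ q) (q : ℕ) (hq : 0 < q) (h1 : ψ q ≤ 1 / 2) :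
    tt y ψ q q ≤ ψ q ^ 2 := by
  classical
  have hqr : (0 : ℝ) < q := by exact_mod_cast hq
  have hn : nn y ψ q q ≤ q * q := by
    have h2 : nn y ψ q q ≤ #(AA y q) := by
      unfold nn
      refine card_le_card_of_injOn (fun z => z.1) ?_ ?_
      · intro z hz
        rw [mem_coe, mem_filter, mem_product] at hz
        exact hz.1.1
      · have key : ∀ z : (ℤ × ℤ) × (ℤ × ℤ), Close y ψ q q z.1 z.2 → z.1 = z.2 := by
          intro z hz
          have key2 : ∀ (t : ℝ) (a b : ℤ), |((a : ℝ) + t) / q - ((b : ℝ) + t) / q| < ψ q / q + ψ q / q →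
              a = b := by
            intro t a b h
            have e : ((a : ℝ) + t) / q - ((b : ℝ) + t) / q = ((a - b : ℤ) : ℝ) / q := by
              push_cast; ring
            have e2 : ψ q / q + ψ q / q = (2 * ψ q) / q := by ring
            rw [e, e2, abs_div, abs_of_pos hqr, div_lt_div_iff_of_pos_right hqr] at h
            have h3 : |((a - b : ℤ) : ℝ)| < 1 := by linarith
            have h4 : |a - b| < 1 := by exact_mod_cast h3
            rw [abs_lt] at h4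
            omega
          exact Prod.ext (key2 _ _ _ hz.1) (key2 _ _ _ hz.2)
        intro z hz z' hz' h
        rw [mem_coe, mem_filter] at hz hz'
        have a1 := key z hz.2
        have a2 := key z' hz'.2
        simp only at h
        refine Prod.ext h ?_
        rw [← a1, ← a2, h]
    refine h2.trans ?_
    unfold AA
    refine (card_filter_le _ _).trans ?_
    rw [card_product, num_card, num_card]
  have hn' : (nn y ψ q q : ℝ) ≤ q * q := by exact_mod_cast hn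
  unfold tt
  rw [min_self]
  calc (ψ q / q) ^ 2 * (nn y ψ q q : ℝ) ≤ (ψ q / q) ^ 2 * (q * q) :=
        mul_le_mul_of_nonneg_left hn' (sq_nonneg _)
    _ = _ := by field_simp

lemma double_sum2 (X : Finset ℕ) (f : ℕ → ℕ → ℝ) (hsym : ∀ q r, f q r = f r q) :
    ∑ q ∈ X, ∑ r ∈ X, f q r = ∑ q ∈ X, f q q + 2 * ∑ q ∈ X, ∑ r ∈ X with r < q, f q r := by
  classical
  have e1 : ∀ q ∈ X, ∑ r ∈ X, f q r = f q q + (∑ r ∈ X, (if r < q then f q r else 0))
      + ∑ r ∈ X, (if q < r then f r q else 0) := by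
    intro q hq
    have e2 : ∀ r ∈ X, f q r = (if r = q then f q q else 0) + (if r < q then f q r else 0)
        + (if q < r then f r q else 0) := by
      intro r _
      rcases lt_trichotomy q r with h | h | h
      · rw [if_neg h.ne', if_pos h, if_neg (not_lt.2 h.le), hsym q r]; ring
      · subst h; simp
      · rw [if_neg h.ne, if_neg (not_lt.2 h.le), if_pos h]; ring
    rw [sum_congr rfl e2, sum_add_distrib, sum_add_distrib, sum_ite_eq' X q, if_pos hq]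
  rw [sum_congr rfl e1, sum_add_distrib, sum_add_distrib]
  have e3 : ∑ q ∈ X, ∑ r ∈ X, (if q < r then f r q else 0) =
      ∑ q ∈ X, ∑ r ∈ X, (if r < q then f q r else 0) := sum_comm
  rw [e3]
  simp only [sum_filter]
  ring

/-- full measure of the tail union -/
theorem tail_full (y : ℝ × ℝ) (ψ : ℕ → ℝ) (hψ : ∀ q, 0 ≤ ψ q) (hψ1 : ∀ q, ψ q ≤ 1 / 2)
    (hdiv : ¬ Summable (fun q => ψ q ^ 2)) (Q0 : ℕ) :
    volume ((Set.Ico (0 : ℝ) 1 ×ˢ Set.Ico (0 : ℝ) 1) \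
      {x : ℝ × ℝ | ∃ q : ℕ, (Q0 ≤ q ∧ 0 < q) ∧ ∃ a : ℤ × ℤ,
        |(q : ℝ) * x.1 - a.1 - y.1| < ψ q ∧ |(q : ℝ) * x.2 - a.2 - y.2| < ψ q}) = 0 := by
  classical
  obtain ⟨Co, hCo, hover⟩ := over_bound
  have hE : MeasurableSet {x : ℝ × ℝ | ∃ q : ℕ, (Q0 ≤ q ∧ 0 < q) ∧ ∃ a : ℤ × ℤ,
        |(q : ℝ) * x.1 - a.1 - y.1| < ψ q ∧ |(q : ℝ) * x.2 - a.2 - y.2| < ψ q} := by
    have : {x : ℝ × ℝ | ∃ q : ℕ, (Q0 ≤ q ∧ 0 < q) ∧ ∃ a : ℤ × ℤ,
        |(q : ℝ) * x.1 - a.1 - y.1| < ψ q ∧ |(q : ℝ) * x.2 - a.2 - y.2| < ψ q} =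
        ⋃ q ∈ {q : ℕ | Q0 ≤ q ∧ 0 < q}, ⋃ a : ℤ × ℤ, {x : ℝ × ℝ | |(q : ℝ) * x.1 - a.1 - y.1| < ψ q ∧
          |(q : ℝ) * x.2 - a.2 - y.2| < ψ q} := by
      ext x
      simp only [Set.mem_setOf_eq, Set.mem_iUnion, exists_prop]
    rw [this]
    refine MeasurableSet.biUnion (Set.to_countable _) fun q _ => MeasurableSet.iUnion fun a => ?_
    have m1 : MeasurableSet {x : ℝ × ℝ | |(q : ℝ) * x.1 - a.1 - y.1| < ψ q} :=
      measurableSet_lt (by fun_prop) measurable_const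
    have m2 : MeasurableSet {x : ℝ × ℝ | |(q : ℝ) * x.2 - a.2 - y.2| < ψ q} :=
      measurableSet_lt (by fun_prop) measurable_const
    exact m1.inter m2
  refine engine2 _ hE (1 / 2) (2 + 2 * Co) (by norm_num) (by positivity) ?_
  intro N hN
  have hNr : (0 : ℝ) < N := by exact_mod_cast hN
  obtain ⟨n, hn1, hn2⟩ := window (fun q => ψ q ^ 2) (fun q => sq_nonneg _)
    (fun q => by have h0 := hψ q; have h1 := hψ1 q; nlinarith) hdiv (max Q0 (23 * N ^ 3 + 1))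
  set X := Ico (max Q0 (23 * N ^ 3 + 1)) n with hX
  have hXm : ∀ q ∈ X, Q0 ≤ q ∧ 23 * N ^ 3 ≤ q ∧ 0 < q ∧ N ≤ q := by
    intro q hq
    rw [hX, mem_Ico, max_le_iff] at hq
    have h3 : N ≤ N ^ 3 := Nat.le_self_pow (by norm_num) N
    refine ⟨hq.1.1, ?_, ?_, ?_⟩ <;> omega
  have hqpos : ∀ q ∈ X, (0 : ℝ) < q := fun q hq => by exact_mod_cast (hXm q hq).2.2.1
  refine ⟨(Σ _ : ℕ, ℤ × ℤ), X.sigma (fun q => AA y q),
    fun j => (((j.2.1 : ℝ) + y.1) / j.1, ((j.2.2 : ℝ) + y.2) / j.1), fun j => ψ j.1 / j.1,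
    ∑ q ∈ X, ψ q ^ 2, by linarith, ?_, ?_, ?_⟩
  · rintro ⟨q, a⟩ hj
    rw [mem_sigma] at hj
    obtain ⟨hq, ha⟩ := hj
    have hq0 := hqpos q hq
    obtain ⟨h1, h2, h3, h4⟩ := hXm q hq
    have h4r : (N : ℝ) ≤ q := by exact_mod_cast h4
    have hp0 := hψ q
    have hp1 := hψ1 q
    refine ⟨div_nonneg (hψ q) hq0.le, ?_, ?_⟩
    · simp only
      rw [div_le_div_iff₀ hq0 hNr]
      nlinarith
    · intro z hz
      obtain ⟨hz1, hz2⟩ := hz
      refine ⟨q, ⟨h1, h3⟩, a, ?_, ?_⟩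
      all_goals
        simp only [Set.mem_Ioo] at hz1 hz2
      · have e : (q : ℝ) * z.1 - a.1 - y.1 = q * (z.1 - ((a.1 : ℝ) + y.1) / q) := by
          field_simp; ring
        rw [e, abs_mul, abs_of_pos hq0]
        have h5 : |z.1 - ((a.1 : ℝ) + y.1) / q| < ψ q / q := by
          rw [abs_lt]; constructor <;> linarith [hz1.1, hz1.2]
        calc (q : ℝ) * |z.1 - ((a.1 : ℝ) + y.1) / q| < q * (ψ q / q) := mul_lt_mul_of_pos_left h5 hq0
          _ = ψ q := by field_simp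
      · have e : (q : ℝ) * z.2 - a.2 - y.2 = q * (z.2 - ((a.2 : ℝ) + y.2) / q) := by
          field_simp; ring
        rw [e, abs_mul, abs_of_pos hq0]
        have h5 : |z.2 - ((a.2 : ℝ) + y.2) / q| < ψ q / q := by
          rw [abs_lt]; constructor <;> linarith [hz2.1, hz2.2]
        calc (q : ℝ) * |z.2 - ((a.2 : ℝ) + y.2) / q| < q * (ψ q / q) := mul_lt_mul_of_pos_left h5 hq0
          _ = ψ q := by field_simp
  · intro i i' hi hi'
    have e1 : (X.sigma (fun q => AA y q)).filter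
        (fun j : (Σ _ : ℕ, ℤ × ℤ) => ((i : ℝ) / N ≤ ((j.2.1 : ℝ) + y.1) / j.1 ∧
          ((j.2.1 : ℝ) + y.1) / j.1 < ((i : ℝ) + 1) / N) ∧
          ((i' : ℝ) / N ≤ ((j.2.2 : ℝ) + y.2) / j.1 ∧
          ((j.2.2 : ℝ) + y.2) / j.1 < ((i' : ℝ) + 1) / N)) =
        X.sigma (fun q => {a ∈ cell y.1 q N i ×ˢ cell y.2 q N i' | Kept y q a}) := by
      ext ⟨q, a⟩
      unfold AA cell
      simp only [mem_filter, mem_sigma, mem_product]
      tauto
    simp only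
    rw [e1, sum_sigma]
    simp only [sum_const, nsmul_eq_mul]
    rw [mul_div_assoc, sum_div, mul_sum]
    refine sum_le_sum fun q hq => ?_
    have hq0 := hqpos q hq
    have hk := kept_count y hN (hXm q hq).2.1 hi hi'
    calc 1 / 2 * (ψ q ^ 2 / (N : ℝ) ^ 2) = (((q : ℝ) / N) ^ 2 / 2) * (ψ q / q) ^ 2 := by field_simp
      _ ≤ _ := mul_le_mul_of_nonneg_right hk (sq_nonneg _)
  · have hsum : (∑ j ∈ X.sigma (fun q => AA y q), ∑ k ∈ X.sigma (fun q => AA y q),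
        (if |(((j.2.1 : ℝ) + y.1) / j.1) - (((k.2.1 : ℝ) + y.1) / k.1)| < ψ j.1 / j.1 + ψ k.1 / k.1 ∧
          |(((j.2.2 : ℝ) + y.2) / j.1) - (((k.2.2 : ℝ) + y.2) / k.1)| < ψ j.1 / j.1 + ψ k.1 / k.1
        then min (ψ j.1 / j.1) (ψ k.1 / k.1) ^ 2 else 0)) = ∑ q ∈ X, ∑ r ∈ X, tt y ψ q r := by
      rw [sum_sigma]
      refine sum_congr rfl fun q _ => ?_
      have e2 : ∀ a ∈ AA y q,
          (∑ k ∈ X.sigma (fun q => AA y q),
            if |(((a.1 : ℝ) + y.1) / q) - (((k.2.1 : ℝ) + y.1) / k.1)| < ψ q / q + ψ k.1 / k.1 ∧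
              |(((a.2 : ℝ) + y.2) / q) - (((k.2.2 : ℝ) + y.2) / k.1)| < ψ q / q + ψ k.1 / k.1
            then min (ψ q / q) (ψ k.1 / k.1) ^ 2 else 0) =
          ∑ r ∈ X, ∑ b ∈ AA y r,
            (if Close y ψ q r a b then min (ψ q / q) (ψ r / r) ^ 2 else 0) := by
        intro a _
        rw [sum_sigma]
        refine sum_congr rfl fun r _ => sum_congr rfl fun b _ => ?_
        by_cases hcl : Close y ψ q r a b
        · rw [if_pos hcl]; exact if_pos hcl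
        · rw [if_neg hcl]; exact if_neg hcl
      rw [sum_congr rfl e2, sum_comm]
      refine sum_congr rfl fun r _ => ?_
      rw [← sum_product', ← sum_filter, sum_const, nsmul_eq_mul, mul_comm]
      rfl
    refine (le_of_eq hsum).trans ?_
    rw [double_sum2 X (fun q r => tt y ψ q r) (fun q r => tt_symm y ψ q r)]
    have hd : ∑ q ∈ X, tt y ψ q q ≤ ∑ q ∈ X, ψ q ^ 2 :=
      sum_le_sum fun q hq => tt_diag y ψ hψ q (hXm q hq).2.2.1 (hψ1 q)
    have ho := hover y ψ hψ X (fun q hq => (hXm q hq).2.2.1) hn2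
    have hn1' : 1 ≤ ∑ q ∈ X, ψ q ^ 2 := hn1
    have hn2' : ∑ q ∈ X, ψ q ^ 2 ≤ 2 := hn2
    have h1 : (2 + 2 * Co) * 1 ≤ (2 + 2 * Co) * (∑ q ∈ X, ψ q ^ 2) ^ 2 :=
      mul_le_mul_of_nonneg_left (one_le_pow₀ hn1') (by positivity)
    linarith

theorem main (y : ℝ × ℝ) (ψ : ℕ → ℝ) (hψ : ∀ q, 0 ≤ ψ q) (hdiv : ¬ Summable (fun q : ℕ => ψ q ^ 2)) :
    ∀ᵐ x ∂(volume.restrict (Set.Icc (0 : ℝ × ℝ) 1)),
        {q : ℕ | 0 < q ∧ ∃ a : ℤ × ℤ,
          ‖(q : ℝ) • x - ((a.1 : ℝ), (a.2 : ℝ)) - y‖ < ψ q}.Infinite := by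
  -- truncate
  set φ : ℕ → ℝ := fun q => min (ψ q) (1 / 2) with hφ
  have hφ0 : ∀ q, 0 ≤ φ q := fun q => le_min (hψ q) (by norm_num)
  have hφ1 : ∀ q, φ q ≤ 1 / 2 := fun q => min_le_right _ _
  have hφdiv : ¬ Summable (fun q => φ q ^ 2) := by
    intro hs
    apply hdiv
    have ht : Tendsto (fun q => φ q ^ 2) atTop (nhds 0) := hs.tendsto_atTop_zero
    have hev : ∀ᶠ q in atTop, φ q ^ 2 < 1 / 4 := ht.eventually (gt_mem_nhds (by norm_num))
    have hev2 : ∀ᶠ q in atTop, φ q ^ 2 = ψ q ^ 2 := by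
      filter_upwards [hev] with q hq
      have h1 : ψ q ≤ 1 / 2 := by
        by_contra hcon
        push Not at hcon
        have : φ q = 1 / 2 := min_eq_right hcon.le
        rw [this] at hq
        norm_num at hq
      have : φ q = ψ q := min_eq_left h1
      rw [this]
    rw [← summable_congr_atTop hev2]
    exact hs
  have htail := tail_full y φ hφ0 hφ1 hφdiv
  have hnull : volume (⋃ Q0 : ℕ, ((Set.Ico (0 : ℝ) 1 ×ˢ Set.Ico (0 : ℝ) 1) \
      {x : ℝ × ℝ | ∃ q : ℕ, (Q0 ≤ q ∧ 0 < q) ∧ ∃ a : ℤ × ℤ,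
        |(q : ℝ) * x.1 - a.1 - y.1| < φ q ∧ |(q : ℝ) * x.2 - a.2 - y.2| < φ q})) = 0 :=
    measure_iUnion_null htail
  have hb1 : volume (({1} : Set ℝ) ×ˢ (Set.univ : Set ℝ)) = 0 := by
    rw [Measure.volume_eq_prod, Measure.prod_prod]; simp
  have hb2 : volume ((Set.univ : Set ℝ) ×ˢ ({1} : Set ℝ)) = 0 := by
    rw [Measure.volume_eq_prod, Measure.prod_prod]; simp
  have hall := measure_union_null (measure_union_null hnull hb1) hb2
  rw [ae_restrict_iff' measurableSet_Icc]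
  have hc := compl_mem_ae_iff.2 hall
  filter_upwards [hc] with x hx hxI
  simp only [Set.mem_compl_iff, Set.mem_union, not_or] at hx
  obtain ⟨⟨hx1, hx2⟩, hx3⟩ := hx
  have hx01 : x ∈ (Set.Ico (0 : ℝ) 1 ×ˢ Set.Ico (0 : ℝ) 1) := by
    obtain ⟨hl, hu⟩ := hxI
    have hl1 : (0 : ℝ) ≤ x.1 := hl.1
    have hl2 : (0 : ℝ) ≤ x.2 := hl.2
    have hu1 : x.1 ≤ 1 := hu.1
    have hu2 : x.2 ≤ 1 := hu.2
    refine ⟨⟨hl1, lt_of_le_of_ne hu1 ?_⟩, ⟨hl2, lt_of_le_of_ne hu2 ?_⟩⟩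
    · intro h; exact hx2 ⟨h, Set.mem_univ _⟩
    · intro h; exact hx3 ⟨Set.mem_univ _, h⟩
  rw [Set.infinite_iff_exists_gt]
  · intro Q
    have h : ∃ q : ℕ, (Q + 1 ≤ q ∧ 0 < q) ∧ ∃ a : ℤ × ℤ,
        |(q : ℝ) * x.1 - a.1 - y.1| < φ q ∧ |(q : ℝ) * x.2 - a.2 - y.2| < φ q := by
      by_contra hcon
      exact hx1 (Set.mem_iUnion.2 ⟨Q + 1, hx01, hcon⟩)
    obtain ⟨q, ⟨hq1, hq2⟩, a, ha1, ha2⟩ := h
    refine ⟨q, ⟨hq2, a, ?_⟩, by omega⟩
    rw [Prod.norm_def]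
    have hle : φ q ≤ ψ q := min_le_left _ _
    refine max_lt ?_ ?_
    · refine lt_of_eq_of_lt ?_ (ha1.trans_le hle)
      simp [Real.norm_eq_abs]
    · refine lt_of_eq_of_lt ?_ (ha2.trans_le hle)
      simp [Real.norm_eq_abs]

end Pool.Agent.H560_K2
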