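import Pool.Agent.H560_K2.Rec

set_option autoImplicit false

namespace Pool.Agent.H560_K2

open Finset

/-- `a` is kept for `q`: for all record denominators `s`, every common divisor of `q` and of the
coordinates of `s a + w s` is less than `1000 s`. -/
def Kept (y : ℝ × ℝ) (q : ℕ) (a : ℤ × ℤ) : Prop :=
  ∀ s, Rec y s → ∀ g : ℕ, g ∣ q → (g : ℤ) ∣ s * a.1 + round ((s : ℝ) * y.1) →
    (g : ℤ) ∣ s * a.2 + round ((s : ℝ) * y.2) → g < 1000 * s

/-- integers `p` with `(p + z) / q ∈ [0, 1)` -/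
noncomputable def num (z : ℝ) (q : ℕ) : Finset ℤ := Ico ⌈-z⌉ (⌈-z⌉ + q)

open scoped Classical in
/-- integers `p` with `(p + z) / q` in the `i`-th cell -/
noncomputable def cell (z : ℝ) (q N i : ℕ) : Finset ℤ :=
  {p ∈ num z q | (i : ℝ) / N ≤ ((p : ℝ) + z) / q ∧ ((p : ℝ) + z) / q < ((i : ℝ) + 1) / N}

lemma cell_card (z : ℝ) {q N i : ℕ} (hq : 0 < q) (hi : i < N) :
    (q : ℝ) / N - 1 ≤ #(cell z q N i) := by
  classical
  have hN : 0 < N := by omega
  have hNr : (0 : ℝ) < N := by exact_mod_cast hN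
  have hqr : (0 : ℝ) < q := by exact_mod_cast hq
  have hsub : Ico ⌈(q : ℝ) * i / N - z⌉ ⌈(q : ℝ) * (i + 1) / N - z⌉ ⊆ cell z q N i := by
    intro p hp
    rw [mem_Ico, Int.ceil_le, Int.lt_ceil] at hp
    obtain ⟨h1, h2⟩ := hp
    have h3 : (i : ℝ) / N ≤ ((p : ℝ) + z) / q := by
      rw [div_le_div_iff₀ hNr hqr]
      have : (q : ℝ) * i / N ≤ p + z := by linarith
      rw [div_le_iff₀ hNr] at this
      linarith
    have h4 : ((p : ℝ) + z) / q < ((i : ℝ) + 1) / N := by
      rw [div_lt_div_iff₀ hqr hNr]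
      have : (p : ℝ) + z < (q : ℝ) * (i + 1) / N := by linarith
      rw [lt_div_iff₀ hNr] at this
      linarith
    unfold cell num
    rw [mem_filter, mem_Ico, Int.ceil_le]
    refine ⟨⟨?_, ?_⟩, h3, h4⟩
    · have : 0 ≤ ((p : ℝ) + z) / q := le_trans (by positivity) h3
      have h9 := mul_nonneg this hqr.le
      rw [div_mul_cancel₀ _ hqr.ne'] at h9
      linarith
    · have h5 : ((p : ℝ) + z) / q < 1 := by
        refine h4.trans_le ?_
        rw [div_le_one hNr]
        have : i + 1 ≤ N := hi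
        exact_mod_cast this
      rw [div_lt_one hqr] at h5
      have h6 : (-z : ℝ) ≤ ⌈-z⌉ := Int.le_ceil _
      have h7 : (p : ℝ) < ((⌈-z⌉ + q : ℤ) : ℝ) := by push_cast; linarith
      exact_mod_cast h7
  have hcard := card_le_card hsub
  rw [Int.card_Ico] at hcard
  have h1 := Int.ceil_lt_add_one ((q : ℝ) * i / N - z)
  have h2 := Int.le_ceil ((q : ℝ) * (i + 1) / N - z)
  have h3 : (q : ℝ) * (i + 1) / N = q * i / N + q / N := by field_simp
  have h4 : ((⌈(q : ℝ) * (i + 1) / N - z⌉ - ⌈(q : ℝ) * i / N - z⌉ : ℤ) : ℝ) ≤ #(cell z q N i) := by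
    have h5 : (⌈(q : ℝ) * (i + 1) / N - z⌉ - ⌈(q : ℝ) * i / N - z⌉ : ℤ) ≤
        ((⌈(q : ℝ) * (i + 1) / N - z⌉ - ⌈(q : ℝ) * i / N - z⌉).toNat : ℤ) := Int.self_le_toNat _
    have h6 : ((⌈(q : ℝ) * (i + 1) / N - z⌉ - ⌈(q : ℝ) * i / N - z⌉).toNat : ℤ) ≤ (#(cell z q N i) : ℤ) := by
      exact_mod_cast hcard
    exact_mod_cast h5.trans h6
  push_cast at h4
  linarith

/-- integers of one residue class in a half-open window -/
lemma class_card (K : Finset ℤ) {α L : ℝ} {g : ℕ} (hg : 0 < g) (_hL : 0 ≤ L)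
    (h : ∀ p ∈ K, α ≤ (p : ℝ) ∧ (p : ℝ) < α + L)
    (hc : ∀ p ∈ K, ∀ p' ∈ K, (g : ℤ) ∣ p - p') : (#K : ℝ) ≤ L / g + 1 := by
  classical
  have hgr : (0 : ℝ) < g := by exact_mod_cast hg
  have hgz : (0 : ℤ) < g := by exact_mod_cast hg
  rcases K.eq_empty_or_nonempty with h0 | h0
  · rw [h0]; simp; positivity
  obtain ⟨p0, hp0, hmin⟩ := K.exists_min_image id h0
  simp only [id] at hmin
  have hcard : #K ≤ #(range ⌈L / g⌉₊) := by
    refine card_le_card_of_injOn (fun p => ((p - p0) / (g : ℤ)).toNat) ?_ ?_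
    · intro p hp
      rw [mem_coe] at hp
      rw [mem_coe, mem_range, Nat.lt_ceil]
      obtain ⟨t, ht⟩ := hc p hp p0 hp0
      have h1 : (p - p0) / (g : ℤ) = t := by rw [ht, Int.mul_ediv_cancel_left _ hgz.ne']
      have h2 := hmin p hp
      have h3 : 0 ≤ t := by
        have : 0 ≤ (g : ℤ) * t := by rw [← ht]; omega
        exact nonneg_of_mul_nonneg_right this hgz
      simp only
      rw [h1]
      have h4 : ((t.toNat : ℕ) : ℝ) = t := by
        have : ((t.toNat : ℕ) : ℤ) = t := Int.toNat_of_nonneg h3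
        exact_mod_cast this
      rw [h4, lt_div_iff₀ hgr]
      have h5 : (g : ℝ) * t = p - p0 := by exact_mod_cast ht.symm
      linarith [(h p hp).2, (h p0 hp0).1]
    · intro p hp p' hp' hpp
      rw [mem_coe] at hp hp'
      obtain ⟨t, ht⟩ := hc p hp p0 hp0
      obtain ⟨t', ht'⟩ := hc p' hp' p0 hp0
      have h1 : (p - p0) / (g : ℤ) = t := by rw [ht, Int.mul_ediv_cancel_left _ hgz.ne']
      have h1' : (p' - p0) / (g : ℤ) = t' := by rw [ht', Int.mul_ediv_cancel_left _ hgz.ne']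
      have h3 : 0 ≤ t := by
        have : 0 ≤ (g : ℤ) * t := by rw [← ht]; have := hmin p hp; omega
        exact nonneg_of_mul_nonneg_right this hgz
      have h3' : 0 ≤ t' := by
        have : 0 ≤ (g : ℤ) * t' := by rw [← ht']; have := hmin p' hp'; omega
        exact nonneg_of_mul_nonneg_right this hgz
      simp only at hpp
      rw [h1, h1'] at hpp
      have : t = t' := by omega
      rw [this, ← ht'] at ht
      omega
  rw [card_range] at hcard
  have h1 : (#K : ℝ) ≤ ⌈L / g⌉₊ := by exact_mod_cast hcard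
  have h2 := Nat.ceil_lt_add_one (a := L / g) (by positivity)
  linarith

lemma cell_mem {z : ℝ} {q N i : ℕ} (hq : 0 < q) (hN : 0 < N) {p : ℤ} (hp : p ∈ cell z q N i) :
    (q : ℝ) * i / N - z ≤ p ∧ (p : ℝ) < (q : ℝ) * i / N - z + q / N := by
  classical
  have hNr : (0 : ℝ) < N := by exact_mod_cast hN
  have hqr : (0 : ℝ) < q := by exact_mod_cast hq
  unfold cell at hp
  rw [mem_filter] at hp
  obtain ⟨-, h1, h2⟩ := hp
  rw [div_le_div_iff₀ hNr hqr] at h1
  rw [div_lt_div_iff₀ hqr hNr] at h2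
  constructor
  · have : (q : ℝ) * i / N ≤ p + z := by rw [div_le_iff₀ hNr]; linarith
    linarith
  · have h3 : (p : ℝ) + z < (q : ℝ) * (i + 1) / N := by rw [lt_div_iff₀ hNr]; linarith
    have h4 : (q : ℝ) * (i + 1) / N = q * i / N + q / N := by field_simp
    linarith

open scoped Classical in
/-- the removed points attached to `s` and `g` -/
lemma removed_card (y : ℝ × ℝ) {q N i i' s g : ℕ} (hq : 0 < q) (hN : 0 < N) (hs : Rec y s)
    (hg : 0 < g) :
    (#{a ∈ cell y.1 q N i ×ˢ cell y.2 q N i' | (g : ℤ) ∣ s * a.1 + round ((s : ℝ) * y.1) ∧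
      (g : ℤ) ∣ s * a.2 + round ((s : ℝ) * y.2)} : ℝ) ≤ ((q : ℝ) / N / g + 1) ^ 2 := by
  set B := {a ∈ cell y.1 q N i ×ˢ cell y.2 q N i' | (g : ℤ) ∣ s * a.1 + round ((s : ℝ) * y.1) ∧
      (g : ℤ) ∣ s * a.2 + round ((s : ℝ) * y.2)} with hB
  rcases B.eq_empty_or_nonempty with h0 | ⟨b, hb⟩
  · rw [h0]; simp; positivity
  have hb' := hb
  rw [hB, mem_filter] at hb'
  have hcop : Nat.Coprime g s := by
    by_contra hcon
    obtain ⟨p, hp, hpg, hps⟩ := Nat.Prime.not_coprime_iff_dvd.1 hcon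
    have hpgz : (p : ℤ) ∣ g := by exact_mod_cast hpg
    have hpsz : (p : ℤ) ∣ s := by exact_mod_cast hps
    refine hs.prim hp.two_le hps ?_ ?_
    · exact (Int.dvd_add_right (hpsz.mul_right _)).1 (hpgz.trans hb'.2.1)
    · exact (Int.dvd_add_right (hpsz.mul_right _)).1 (hpgz.trans hb'.2.2)
  have hcopz : IsCoprime (g : ℤ) (s : ℤ) := Nat.isCoprime_iff_coprime.2 hcop
  have key : ∀ (c c' w : ℤ), (g : ℤ) ∣ s * c + w → (g : ℤ) ∣ s * c' + w → (g : ℤ) ∣ c - c' := by
    intro c c' w h1 h2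
    have h3 : (g : ℤ) ∣ s * (c - c') := by
      have := dvd_sub h1 h2
      have e : (s * c + w) - (s * c' + w) = (s : ℤ) * (c - c') := by ring
      rwa [e] at this
    exact hcopz.dvd_of_dvd_mul_left h3
  have hsub : B ⊆ ((cell y.1 q N i).filter (fun c => (g : ℤ) ∣ s * c + round ((s : ℝ) * y.1))) ×ˢ
      ((cell y.2 q N i').filter (fun c => (g : ℤ) ∣ s * c + round ((s : ℝ) * y.2))) := by
    intro a ha
    rw [hB, mem_filter, mem_product] at ha
    rw [mem_product, mem_filter, mem_filter]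
    exact ⟨⟨ha.1.1, ha.2.1⟩, ha.1.2, ha.2.2⟩
  have hc := card_le_card hsub
  rw [card_product] at hc
  have h1 : ∀ (z : ℝ) (w : ℤ) (i : ℕ), (#((cell z q N i).filter (fun c => (g : ℤ) ∣ s * c + w)) : ℝ)
      ≤ (q : ℝ) / N / g + 1 := by
    intro z w i
    refine class_card _ (α := (q : ℝ) * i / N - z) (L := (q : ℝ) / N) hg (by positivity) ?_ ?_
    · intro p hp
      exact cell_mem hq hN (mem_filter.1 hp).1
    · intro p hp p' hp'
      exact key _ _ _ (mem_filter.1 hp).2 (mem_filter.1 hp').2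
  calc (#B : ℝ) ≤ (#((cell y.1 q N i).filter (fun c => (g : ℤ) ∣ s * c + round ((s : ℝ) * y.1))) : ℝ) *
        (#((cell y.2 q N i').filter (fun c => (g : ℤ) ∣ s * c + round ((s : ℝ) * y.2))) : ℝ) := by
        exact_mod_cast hc
    _ ≤ ((q : ℝ) / N / g + 1) * ((q : ℝ) / N / g + 1) :=
        mul_le_mul (h1 _ _ _) (h1 _ _ _) (by positivity) (by positivity)
    _ = _ := by ring

open scoped Classical in
lemma big_divisors (q N : ℕ) (hq : 0 < q) (hN : 0 < N) :
    #(q.divisors.filter (fun g : ℕ => (q : ℝ) / N < (g : ℝ))) ≤ N := by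
  classical
  have hNr : (0 : ℝ) < N := by exact_mod_cast hN
  have : #(q.divisors.filter (fun g : ℕ => (q : ℝ) / N < (g : ℝ))) ≤ #(range N) := by
    refine card_le_card_of_injOn (fun g => q / g) ?_ ?_
    · intro g hg
      rw [mem_coe, mem_filter, Nat.mem_divisors] at hg
      obtain ⟨⟨⟨t, ht⟩, -⟩, h2⟩ := hg
      have hg0 : 0 < g := by
        rcases Nat.eq_zero_or_pos g with h | h
        · rw [h, zero_mul] at ht; omega
        · exact h
      rw [mem_coe, mem_range]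
      have h3 : q / g = t := by rw [ht, Nat.mul_div_cancel_left _ hg0]
      simp only
      rw [h3]
      rw [div_lt_iff₀ hNr] at h2
      have h4 : q < g * N := by exact_mod_cast h2
      rw [ht] at h4
      exact Nat.lt_of_mul_lt_mul_left h4
    · intro g hg g' hg' hgg
      rw [mem_coe, mem_filter, Nat.mem_divisors] at hg hg'
      simp only at hgg
      have h1 := Nat.div_mul_cancel hg.1.1
      have h2 := Nat.div_mul_cancel hg'.1.1
      have h3 : 0 < q / g := by
        rcases Nat.eq_zero_or_pos (q / g) with h | h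
        · rw [h, zero_mul] at h1; omega
        · exact h
      rw [← hgg] at h2
      exact Nat.eq_of_mul_eq_mul_left h3 (h1.trans h2.symm)
  rwa [card_range] at this

open scoped Classical in
theorem kept_count (y : ℝ × ℝ) {N q i i' : ℕ} (hN : 0 < N) (hq : 23 * N ^ 3 ≤ q) (hi : i < N)
    (hi' : i' < N) :
    ((q : ℝ) / N) ^ 2 / 2 ≤ (#{a ∈ cell y.1 q N i ×ˢ cell y.2 q N i' | Kept y q a} : ℝ) := by
  have hq0 : 0 < q := by
    have : 0 < N ^ 3 := Nat.pow_pos hN
    omega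
  have hNr : (1 : ℝ) ≤ N := by exact_mod_cast hN
  have hN0 : (0 : ℝ) < N := by linarith
  have hqr : (0 : ℝ) < q := by exact_mod_cast hq0
  set L : ℝ := (q : ℝ) / N with hL
  clear_value L
  have hLpos : 0 < L := by rw [hL]; positivity
  have hLbig : 23 * (N : ℝ) ^ 2 ≤ L := by
    rw [hL, le_div_iff₀ hN0]
    have : ((23 * N ^ 3 : ℕ) : ℝ) ≤ q := by exact_mod_cast hq
    push_cast at this
    linarith [this, show (23 : ℝ) * N ^ 2 * N = 23 * N ^ 3 by ring]
  set Cc := cell y.1 q N i ×ˢ cell y.2 q N i' with hCc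
  set SS := (range (q + 1)).filter (fun s => Rec y s) with hSS
  let Bd : ℕ → ℕ → Finset (ℤ × ℤ) := fun s g =>
    {a ∈ Cc | (g : ℤ) ∣ s * a.1 + round ((s : ℝ) * y.1) ∧ (g : ℤ) ∣ s * a.2 + round ((s : ℝ) * y.2)}
  have hsub : Cc.filter (fun a => ¬ Kept y q a) ⊆
      SS.biUnion (fun s => (q.divisors.filter (fun g => 1000 * s ≤ g)).biUnion (fun g => Bd s g)) := by
    intro a ha
    rw [mem_filter] at ha
    obtain ⟨haC, hk⟩ := ha
    unfold Kept at hk
    push Not at hk
    obtain ⟨s, hs, g, hg, h1, h2, h3⟩ := hk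
    have hgle : g ≤ q := Nat.le_of_dvd hq0 hg
    rw [mem_biUnion]
    refine ⟨s, ?_, ?_⟩
    · rw [hSS, mem_filter, mem_range]
      exact ⟨by omega, hs⟩
    · rw [mem_biUnion]
      refine ⟨g, ?_, ?_⟩
      · rw [mem_filter, Nat.mem_divisors]
        exact ⟨⟨hg, hq0.ne'⟩, h3⟩
      · rw [mem_filter]
        exact ⟨haC, h1, h2⟩
  have hrem : (#(Cc.filter (fun a => ¬ Kept y q a)) : ℝ) ≤
      ∑ s ∈ SS, ∑ g ∈ q.divisors.filter (fun g => 1000 * s ≤ g), (L / g + 1) ^ 2 := by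
    have h1 := (card_le_card hsub).trans card_biUnion_le
    have h2 : (#(Cc.filter (fun a => ¬ Kept y q a)) : ℝ) ≤
        ∑ s ∈ SS, (#((q.divisors.filter (fun g => 1000 * s ≤ g)).biUnion (fun g => Bd s g)) : ℝ) := by
      exact_mod_cast h1
    refine h2.trans (Finset.sum_le_sum fun s hs => ?_)
    have h3 : (#((q.divisors.filter (fun g => 1000 * s ≤ g)).biUnion (fun g => Bd s g)) : ℝ) ≤
        ∑ g ∈ q.divisors.filter (fun g => 1000 * s ≤ g), (#(Bd s g) : ℝ) := by
      exact_mod_cast card_biUnion_le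
    refine h3.trans (Finset.sum_le_sum fun g hg => ?_)
    rw [hSS, mem_filter] at hs
    rw [mem_filter] at hg
    have hg0 : 0 < g := by have := hs.2.1; omega
    rw [hL]
    exact removed_card y hq0 hN hs.2 hg0
  have hterm : ∀ s ∈ SS, ∑ g ∈ q.divisors.filter (fun g => 1000 * s ≤ g), (L / g + 1) ^ 2 ≤
      4 * L ^ 2 * (2 / 1000 * (1 / (s : ℝ))) + 4 * N := by
    intro s hs
    rw [hSS, mem_filter] at hs
    have hs1 := hs.2.1
    have hsr : (0 : ℝ) < s := by exact_mod_cast hs1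
    have h1 : ∀ g ∈ q.divisors.filter (fun g => 1000 * s ≤ g), (L / g + 1) ^ 2 ≤
        4 * L ^ 2 * ((g : ℝ) ^ 2)⁻¹ + 4 * (if L < g then 1 else 0) := by
      intro g hg
      rw [mem_filter] at hg
      have hg0 : 0 < g := by omega
      have hgr : (0 : ℝ) < g := by exact_mod_cast hg0
      by_cases h : L < g
      · rw [if_pos h]
        have h2 : L / g ≤ 1 := by rw [div_le_one hgr]; exact h.le
        have h3 : 0 ≤ L / g := by positivity
        have h4 : 0 ≤ 4 * L ^ 2 * ((g : ℝ) ^ 2)⁻¹ := by positivity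
        nlinarith
      · rw [if_neg h]
        push Not at h
        have h2 : 1 ≤ L / g := by rw [one_le_div hgr]; exact h
        have h3 : 4 * L ^ 2 * ((g : ℝ) ^ 2)⁻¹ = 4 * (L / g) ^ 2 := by
          rw [div_pow, div_eq_mul_inv (L ^ 2)]; ring
        rw [h3]
        nlinarith
    refine (Finset.sum_le_sum h1).trans ?_
    rw [Finset.sum_add_distrib, ← Finset.mul_sum, ← Finset.mul_sum]
    refine add_le_add ?_ ?_
    · refine mul_le_mul_of_nonneg_left ?_ (by positivity)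
      have h2 : ∑ g ∈ q.divisors.filter (fun g => 1000 * s ≤ g), ((g : ℝ) ^ 2)⁻¹ ≤
          ∑ g ∈ Ioo (1000 * s - 1) (q + 1), ((g : ℝ) ^ 2)⁻¹ := by
        refine Finset.sum_le_sum_of_subset_of_nonneg ?_ (fun _ _ _ => by positivity)
        intro g hg
        rw [mem_filter, Nat.mem_divisors] at hg
        have := Nat.le_of_dvd hq0 hg.1.1
        rw [mem_Ioo]
        omega
      refine h2.trans ((sum_Ioo_inv_sq_le (α := ℝ) (1000 * s - 1) (q + 1)).trans ?_)
      have h3 : (((1000 * s - 1 : ℕ) : ℝ) + 1) = 1000 * s := by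
        have : 1000 * s - 1 + 1 = 1000 * s := by omega
        exact_mod_cast this
      rw [h3]
      apply le_of_eq
      field_simp
    · refine mul_le_mul_of_nonneg_left ?_ (by norm_num)
      rw [← Finset.sum_filter, Finset.sum_const, nsmul_eq_mul, mul_one]
      have h2 : #((q.divisors.filter (fun g => 1000 * s ≤ g)).filter (fun g : ℕ => L < g)) ≤ N := by
        refine le_trans (card_le_card ?_) (big_divisors q N hq0 hN)
        intro g hg
        rw [mem_filter, mem_filter] at hg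
        rw [mem_filter]
        exact ⟨hg.1.1, by rw [← hL]; exact hg.2⟩
      exact_mod_cast h2
  have hrem2 : (#(Cc.filter (fun a => ¬ Kept y q a)) : ℝ) ≤ 64 / 1000 * L ^ 2 + 4 * N * (q + 1) := by
    refine hrem.trans ((Finset.sum_le_sum hterm).trans ?_)
    rw [Finset.sum_add_distrib, ← Finset.mul_sum, ← Finset.mul_sum, Finset.sum_const, nsmul_eq_mul]
    have h1 : ∑ s ∈ SS, (1 : ℝ) / s ≤ 8 := rec_sum SS (fun s hs => (mem_filter.1 hs).2)
    have h2 : (#SS : ℝ) ≤ q + 1 := by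
      have : #SS ≤ #(range (q + 1)) := card_filter_le _ _
      rw [card_range] at this
      exact_mod_cast this
    have h3 : 4 * L ^ 2 * (2 / 1000 * ∑ s ∈ SS, (1 : ℝ) / s) ≤ 4 * L ^ 2 * (2 / 1000 * 8) :=
      mul_le_mul_of_nonneg_left (by linarith) (by positivity)
    have h4 : (#SS : ℝ) * (4 * N) ≤ (q + 1) * (4 * N) := mul_le_mul_of_nonneg_right h2 (by positivity)
    linarith
  have htot : (L - 1) ^ 2 ≤ (#Cc : ℝ) := by
    rw [hCc, card_product]
    push_cast
    have h1 := cell_card y.1 hq0 hi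
    have h2 := cell_card y.2 hq0 hi'
    rw [← hL] at h1 h2
    have h3 : 0 ≤ L - 1 := by nlinarith
    calc (L - 1) ^ 2 = (L - 1) * (L - 1) := by ring
      _ ≤ _ := mul_le_mul h1 h2 h3 (by positivity)
  have hsplit : (#Cc : ℝ) = (#(Cc.filter (fun a => Kept y q a)) : ℝ) +
      (#(Cc.filter (fun a => ¬ Kept y q a)) : ℝ) := by
    have := Finset.card_filter_add_card_filter_not (s := Cc) (fun a => Kept y q a)
    exact_mod_cast this.symm
  have hqL : (q : ℝ) = L * N := by rw [hL]; field_simp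
  rw [hqL] at hrem2
  have hfin : L ^ 2 / 2 ≤ (L - 1) ^ 2 - (64 / 1000 * L ^ 2 + 4 * N * (L * N + 1)) := by
    have h1 : 1 ≤ (N : ℝ) ^ 2 := by nlinarith
    have h2 : (N : ℝ) ≤ (N : ℝ) ^ 2 := by nlinarith
    have h3 : 4 * (N : ℝ) * (L * N + 1) ≤ 4 * L * N ^ 2 + 4 * N ^ 2 := by nlinarith
    have h4 : 23 * (N : ℝ) ^ 2 * L ≤ L * L := mul_le_mul_of_nonneg_right hLbig hLpos.le
    have h5 : (N : ℝ) ^ 2 ≤ L := by nlinarith
    have h6 : L ≤ L * (N : ℝ) ^ 2 := by nlinarith
    nlinarith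
  linarith

end Pool.Agent.H560_K2
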