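import Pool.Agent.H560_K2.Kept
import Pool.Agent.X152.DS.Count

set_option autoImplicit false

namespace Pool.Agent.H560_K2

open Finset

/-- number of close pairs when the window holds at most one multiple of the gcd -/
theorem close_pairs_one (q r : ℕ) (hq : 0 < q) (hr : 0 < r) (y y' : ℝ) (X X' : ℤ) (δ : ℝ)
    (Z : Finset (ℤ × ℤ)) (hZ : Z ⊆ Ico X (X + q) ×ˢ Ico X' (X' + r))
    (hclose : ∀ z ∈ Z, |((z.1 : ℝ) + y) / q - ((z.2 : ℝ) + y') / r| < δ)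
    (hδ : 2 * (δ * (q * r)) ≤ Nat.gcd q r) : #Z ≤ Nat.gcd q r := by
  classical
  set g := Nat.gcd q r with hg
  have hgpos : 0 < g := Nat.gcd_pos_of_pos_left _ hq
  have hqr : (0 : ℝ) < q * r := by
    have h1 : (0 : ℝ) < q := by exact_mod_cast hq
    have h2 : (0 : ℝ) < r := by exact_mod_cast hr
    positivity
  have h0 := Pool.Agent.X152.DS.card_le_gcd_mul q r hq hr X X' Z hZ
  set K := Z.image (fun z => z.1 * (r : ℤ) - z.2 * q) with hK
  set c := y * r - y' * q with hc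
  have hKm : ∀ k ∈ K, (g : ℤ) ∣ k ∧ |(k : ℝ) + c| < δ * (q * r) := by
    intro k hk
    rw [hK, mem_image] at hk
    obtain ⟨z, hz, rfl⟩ := hk
    constructor
    · have h1 : (g : ℤ) ∣ r := by exact_mod_cast Nat.gcd_dvd_right q r
      have h2 : (g : ℤ) ∣ q := by exact_mod_cast Nat.gcd_dvd_left q r
      exact dvd_sub (Dvd.dvd.mul_left h1 _) (Dvd.dvd.mul_left h2 _)
    · have := hclose z hz
      rw [Pool.Agent.X152.DS.diff_eq q r hq hr, abs_div, abs_of_pos hqr, div_lt_iff₀ hqr] at this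
      exact this
  have hK1 : #K ≤ 1 := by
    rw [Finset.card_le_one]
    intro a ha b hb
    obtain ⟨h1, h2⟩ := hKm a ha
    obtain ⟨h3, h4⟩ := hKm b hb
    obtain ⟨t, ht⟩ := dvd_sub h1 h3
    rw [abs_lt] at h2 h4
    have h5 : |((a - b : ℤ) : ℝ)| < g := by
      push_cast
      rw [abs_lt]
      constructor <;> linarith
    rw [ht] at h5
    push_cast at h5
    have hgr : (0 : ℝ) < g := by exact_mod_cast hgpos
    rw [abs_mul, abs_of_pos hgr] at h5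
    have h6 : |(t : ℝ)| < 1 := by
      by_contra hcon
      push Not at hcon
      nlinarith
    have h7 : |t| < 1 := by exact_mod_cast h6
    have h8 : t = 0 := by
      rw [abs_lt] at h7; omega
    rw [h8, mul_zero] at ht
    omega
  calc #Z ≤ g * #K := h0
    _ ≤ g * 1 := Nat.mul_le_mul_left _ hK1
    _ = g := mul_one _

open scoped Classical in
/-- admissible numerators -/
noncomputable def AA (y : ℝ × ℝ) (q : ℕ) : Finset (ℤ × ℤ) :=
  {a ∈ num y.1 q ×ˢ num y.2 q | Kept y q a}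

/-- closeness of two squares -/
def Close (y : ℝ × ℝ) (ψ : ℕ → ℝ) (q r : ℕ) (a b : ℤ × ℤ) : Prop :=
  |((a.1 : ℝ) + y.1) / q - ((b.1 : ℝ) + y.1) / r| < ψ q / q + ψ r / r ∧
  |((a.2 : ℝ) + y.2) / q - ((b.2 : ℝ) + y.2) / r| < ψ q / q + ψ r / r

open scoped Classical in
/-- number of close pairs -/
noncomputable def nn (y : ℝ × ℝ) (ψ : ℕ → ℝ) (q r : ℕ) : ℕ :=
  #{z ∈ AA y q ×ˢ AA y r | Close y ψ q r z.1 z.2}

/-- the quantity `ε` of a pair -/
noncomputable def eps (ψ : ℕ → ℝ) (q r : ℕ) : ℝ :=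
  ((r / Nat.gcd q r : ℕ) : ℝ) * ψ q + ((q / Nat.gcd q r : ℕ) : ℝ) * ψ r

lemma cast_div_gcd_left (q r : ℕ) (hq : 0 < q) :
    ((q / Nat.gcd q r : ℕ) : ℝ) = q / Nat.gcd q r := by
  rw [Nat.cast_div (Nat.gcd_dvd_left q r)]
  have := Nat.gcd_pos_of_pos_left r hq
  exact_mod_cast this.ne'

lemma cast_div_gcd_right (q r : ℕ) (hq : 0 < q) :
    ((r / Nat.gcd q r : ℕ) : ℝ) = r / Nat.gcd q r := by
  rw [Nat.cast_div (Nat.gcd_dvd_right q r)]
  have := Nat.gcd_pos_of_pos_left r hq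
  exact_mod_cast this.ne'

lemma gcd_mul_eps (ψ : ℕ → ℝ) (q r : ℕ) (hq : 0 < q) (hr : 0 < r) :
    (ψ q / q + ψ r / r) * (q * r) = Nat.gcd q r * eps ψ q r := by
  unfold eps
  rw [cast_div_gcd_left q r hq, cast_div_gcd_right q r hq]
  have h1 : (0 : ℝ) < q := by exact_mod_cast hq
  have h2 : (0 : ℝ) < r := by exact_mod_cast hr
  have h3 : (0 : ℝ) < Nat.gcd q r := by exact_mod_cast Nat.gcd_pos_of_pos_left r hq
  field_simp

open scoped Classical in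
/-- one coordinate -/
noncomputable def Z1 (z : ℝ) (ψ : ℕ → ℝ) (q r : ℕ) : Finset (ℤ × ℤ) :=
  {p ∈ num z q ×ˢ num z r | |((p.1 : ℝ) + z) / q - ((p.2 : ℝ) + z) / r| < ψ q / q + ψ r / r}

lemma nn_le (y : ℝ × ℝ) (ψ : ℕ → ℝ) (q r : ℕ) : nn y ψ q r ≤ #(Z1 y.1 ψ q r) * #(Z1 y.2 ψ q r) := by
  classical
  unfold nn
  rw [← card_product]
  refine card_le_card_of_injOn (fun z => ((z.1.1, z.2.1), (z.1.2, z.2.2))) ?_ ?_
  · intro z hz
    rw [mem_coe, mem_filter, mem_product] at hz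
    obtain ⟨⟨h1, h2⟩, h3, h4⟩ := hz
    unfold AA at h1 h2
    rw [mem_filter, mem_product] at h1 h2
    rw [mem_coe, mem_product]
    unfold Z1
    rw [mem_filter, mem_filter, mem_product, mem_product]
    exact ⟨⟨⟨h1.1.1, h2.1.1⟩, h3⟩, ⟨h1.1.2, h2.1.2⟩, h4⟩
  · rintro ⟨⟨a1, a2⟩, ⟨b1, b2⟩⟩ _ ⟨⟨c1, c2⟩, ⟨d1, d2⟩⟩ _ h
    simp only [Prod.mk.injEq] at h ⊢
    tauto

lemma Z1_card (z : ℝ) (ψ : ℕ → ℝ) (hψ : ∀ q, 0 ≤ ψ q) (q r : ℕ) (hq : 0 < q) (hr : 0 < r) :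
    (#(Z1 z ψ q r) : ℝ) ≤ Nat.gcd q r * (2 * eps ψ q r + 1) := by
  classical
  have := Pool.Agent.X152.DS.close_pairs q r hq hr z z ⌈-z⌉ ⌈-z⌉ (ψ q / q + ψ r / r)
    (add_nonneg (div_nonneg (hψ q) (by positivity)) (div_nonneg (hψ r) (by positivity)))
    (Z1 z ψ q r) (filter_subset _ _) (fun p hp => (mem_filter.1 hp).2)
  rw [gcd_mul_eps ψ q r hq hr] at this
  linarith

lemma Z1_card_one (z : ℝ) (ψ : ℕ → ℝ) (q r : ℕ) (hq : 0 < q) (hr : 0 < r)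
    (he : 2 * eps ψ q r ≤ 1) : #(Z1 z ψ q r) ≤ Nat.gcd q r := by
  classical
  refine close_pairs_one q r hq hr z z ⌈-z⌉ ⌈-z⌉ (ψ q / q + ψ r / r)
    (Z1 z ψ q r) (filter_subset _ _) (fun p hp => (mem_filter.1 hp).2) ?_
  rw [gcd_mul_eps ψ q r hq hr]
  have h3 : (0 : ℝ) < Nat.gcd q r := by exact_mod_cast Nat.gcd_pos_of_pos_left r hq
  nlinarith

/-- the term of a pair in the second moment -/
noncomputable def tt (y : ℝ × ℝ) (ψ : ℕ → ℝ) (q r : ℕ) : ℝ :=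
  min (ψ q / q) (ψ r / r) ^ 2 * nn y ψ q r

lemma gcd_mul_min_le (ψ : ℕ → ℝ) (q r : ℕ) (hq : 0 < q) (hr : 0 < r) :
    (Nat.gcd q r : ℝ) * min (ψ q / q) (ψ r / r) ≤ ψ q / ((q / Nat.gcd q r : ℕ) : ℝ) ∧
    (Nat.gcd q r : ℝ) * min (ψ q / q) (ψ r / r) ≤ ψ r / ((r / Nat.gcd q r : ℕ) : ℝ) := by
  rw [cast_div_gcd_left q r hq, cast_div_gcd_right q r hq]
  have h1 : (0 : ℝ) < q := by exact_mod_cast hq
  have h2 : (0 : ℝ) < r := by exact_mod_cast hr
  have h3 : (0 : ℝ) < Nat.gcd q r := by exact_mod_cast Nat.gcd_pos_of_pos_left r hq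
  constructor
  · calc (Nat.gcd q r : ℝ) * min (ψ q / q) (ψ r / r) ≤ Nat.gcd q r * (ψ q / q) :=
        mul_le_mul_of_nonneg_left (min_le_left _ _) h3.le
      _ = _ := by field_simp
  · calc (Nat.gcd q r : ℝ) * min (ψ q / q) (ψ r / r) ≤ Nat.gcd q r * (ψ r / r) :=
        mul_le_mul_of_nonneg_left (min_le_right _ _) h3.le
      _ = _ := by field_simp

lemma tt_large (y : ℝ × ℝ) (ψ : ℕ → ℝ) (hψ : ∀ q, 0 ≤ ψ q) (q r : ℕ) (hq : 0 < q) (hr : 0 < r)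
    (he : 1 / 4 ≤ eps ψ q r) : tt y ψ q r ≤ 144 * (ψ q ^ 2 * ψ r ^ 2) := by
  have h1 : (0 : ℝ) < q := by exact_mod_cast hq
  have h2 : (0 : ℝ) < r := by exact_mod_cast hr
  have h3 : (0 : ℝ) < Nat.gcd q r := by exact_mod_cast Nat.gcd_pos_of_pos_left r hq
  have hm0 : 0 ≤ min (ψ q / q) (ψ r / r) :=
    le_min (div_nonneg (hψ q) h1.le) (div_nonneg (hψ r) h2.le)
  have hn : (nn y ψ q r : ℝ) ≤ (6 * (Nat.gcd q r * eps ψ q r)) ^ 2 := by
    have ha := Z1_card y.1 ψ hψ q r hq hr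
    have hb := Z1_card y.2 ψ hψ q r hq hr
    have hc : (Nat.gcd q r : ℝ) * (2 * eps ψ q r + 1) ≤ 6 * (Nat.gcd q r * eps ψ q r) := by
      nlinarith
    calc (nn y ψ q r : ℝ) ≤ (#(Z1 y.1 ψ q r) : ℝ) * (#(Z1 y.2 ψ q r) : ℝ) := by
          exact_mod_cast nn_le y ψ q r
      _ ≤ (6 * (Nat.gcd q r * eps ψ q r)) * (6 * (Nat.gcd q r * eps ψ q r)) :=
          mul_le_mul (ha.trans hc) (hb.trans hc) (by positivity) (by nlinarith)
      _ = _ := by ring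
  have hme : min (ψ q / q) (ψ r / r) * (Nat.gcd q r * eps ψ q r) ≤ 2 * (ψ q * ψ r) := by
    rw [← gcd_mul_eps ψ q r hq hr]
    have e : (ψ q / q + ψ r / r) * (q * r) = r * ψ q + q * ψ r := by field_simp
    rw [e]
    have ha : min (ψ q / q) (ψ r / r) * (r * ψ q) ≤ ψ q * ψ r := by
      calc min (ψ q / q) (ψ r / r) * (r * ψ q) ≤ (ψ r / r) * (r * ψ q) :=
            mul_le_mul_of_nonneg_right (min_le_right _ _) (mul_nonneg h2.le (hψ q))
        _ = _ := by field_simp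
    have hb : min (ψ q / q) (ψ r / r) * (q * ψ r) ≤ ψ q * ψ r := by
      calc min (ψ q / q) (ψ r / r) * (q * ψ r) ≤ (ψ q / q) * (q * ψ r) :=
            mul_le_mul_of_nonneg_right (min_le_left _ _) (mul_nonneg h1.le (hψ r))
        _ = _ := by field_simp
    linarith
  have hme0 : 0 ≤ min (ψ q / q) (ψ r / r) * (Nat.gcd q r * eps ψ q r) :=
    mul_nonneg hm0 (mul_nonneg h3.le (by linarith))
  unfold tt
  calc min (ψ q / q) (ψ r / r) ^ 2 * (nn y ψ q r : ℝ)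
      ≤ min (ψ q / q) (ψ r / r) ^ 2 * (6 * (Nat.gcd q r * eps ψ q r)) ^ 2 :=
        mul_le_mul_of_nonneg_left hn (sq_nonneg _)
    _ = 36 * (min (ψ q / q) (ψ r / r) * (Nat.gcd q r * eps ψ q r)) ^ 2 := by ring
    _ ≤ 36 * (2 * (ψ q * ψ r)) ^ 2 := by
        have := pow_le_pow_left₀ hme0 hme 2
        linarith
    _ = _ := by ring

lemma tt_small (y : ℝ × ℝ) (ψ : ℕ → ℝ) (hψ : ∀ q, 0 ≤ ψ q) (q r : ℕ) (hq : 0 < q) (hr : 0 < r)
    (he : eps ψ q r < 1 / 4) :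
    tt y ψ q r ≤ (ψ q / ((q / Nat.gcd q r : ℕ) : ℝ)) ^ 2 ∧
    tt y ψ q r ≤ (ψ r / ((r / Nat.gcd q r : ℕ) : ℝ)) ^ 2 ∧
    tt y ψ q r ≤ (ψ q / ((q / Nat.gcd q r : ℕ) : ℝ)) * (ψ r / ((r / Nat.gcd q r : ℕ) : ℝ)) := by
  have h1 : (0 : ℝ) < q := by exact_mod_cast hq
  have h2 : (0 : ℝ) < r := by exact_mod_cast hr
  have h3 : (0 : ℝ) < Nat.gcd q r := by exact_mod_cast Nat.gcd_pos_of_pos_left r hq
  have hm0 : 0 ≤ min (ψ q / q) (ψ r / r) :=
    le_min (div_nonneg (hψ q) h1.le) (div_nonneg (hψ r) h2.le)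
  have hn : (nn y ψ q r : ℝ) ≤ (Nat.gcd q r : ℝ) ^ 2 := by
    have ha := Z1_card_one y.1 ψ q r hq hr (by linarith)
    have hb := Z1_card_one y.2 ψ q r hq hr (by linarith)
    have := (nn_le y ψ q r).trans (Nat.mul_le_mul ha hb)
    rw [sq]
    exact_mod_cast this
  obtain ⟨ha, hb⟩ := gcd_mul_min_le ψ q r hq hr
  have ht : tt y ψ q r ≤ (Nat.gcd q r * min (ψ q / q) (ψ r / r)) ^ 2 := by
    unfold tt
    calc min (ψ q / q) (ψ r / r) ^ 2 * (nn y ψ q r : ℝ)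
        ≤ min (ψ q / q) (ψ r / r) ^ 2 * (Nat.gcd q r : ℝ) ^ 2 :=
          mul_le_mul_of_nonneg_left hn (sq_nonneg _)
      _ = _ := by ring
  have h0 : 0 ≤ (Nat.gcd q r : ℝ) * min (ψ q / q) (ψ r / r) := mul_nonneg h3.le hm0
  refine ⟨ht.trans (pow_le_pow_left₀ h0 ha 2), ht.trans (pow_le_pow_left₀ h0 hb 2), ht.trans ?_⟩
  rw [sq]
  exact mul_le_mul ha hb h0 (h0.trans ha)

/-- a close pair in the normalised form -/
lemma close_norm (z : ℝ) (ψ : ℕ → ℝ) (q r : ℕ) (hq : 0 < q) (hr : 0 < r) (a b : ℤ)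
    (h : |((a : ℝ) + z) / q - ((b : ℝ) + z) / r| < ψ q / q + ψ r / r) :
    |((r / Nat.gcd q r : ℕ) : ℝ) * (a + z) - ((q / Nat.gcd q r : ℕ) : ℝ) * (b + z)| < eps ψ q r := by
  have h1 : (0 : ℝ) < q := by exact_mod_cast hq
  have h2 : (0 : ℝ) < r := by exact_mod_cast hr
  have h3 : (0 : ℝ) < Nat.gcd q r := by exact_mod_cast Nat.gcd_pos_of_pos_left r hq
  have h4 := mul_lt_mul_of_pos_right h (by positivity : (0 : ℝ) < q * r)
  rw [gcd_mul_eps ψ q r hq hr] at h4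
  have e : |((a : ℝ) + z) / q - ((b : ℝ) + z) / r| * (q * r) =
      Nat.gcd q r * |((r / Nat.gcd q r : ℕ) : ℝ) * (a + z) - ((q / Nat.gcd q r : ℕ) : ℝ) * (b + z)| := by
    rw [cast_div_gcd_left q r hq, cast_div_gcd_right q r hq]
    rw [← abs_of_pos (by positivity : (0 : ℝ) < q * r), ← abs_mul]
    conv_rhs => rw [← abs_of_pos h3, ← abs_mul]
    congr 1
    rw [abs_of_pos h3]
    field_simp
  rw [e] at h4
  exact lt_of_mul_lt_mul_left h4 h3.le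

lemma nn_pos_nd (y : ℝ × ℝ) (ψ : ℕ → ℝ) (q r : ℕ) (hr : 0 < r) (hrq : r < q)
    (hn : nn y ψ q r ≠ 0) :
    nd y (q / Nat.gcd q r - r / Nat.gcd q r) < eps ψ q r ∧
    ∃ a ∈ AA y q, ∃ b ∈ AA y r, Close y ψ q r a b := by
  classical
  have hq : 0 < q := by omega
  unfold nn at hn
  rw [Finset.card_ne_zero] at hn
  obtain ⟨⟨a, b⟩, hz⟩ := hn
  rw [mem_filter, mem_product] at hz
  obtain ⟨⟨ha, hb⟩, hc⟩ := hz
  refine ⟨?_, a, ha, b, hb, hc⟩
  have h1 := close_norm y.1 ψ q r hq hr a.1 b.1 hc.1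
  have h2 := close_norm y.2 ψ q r hq hr a.2 b.2 hc.2
  have hle : r / Nat.gcd q r ≤ q / Nat.gcd q r := Nat.div_le_div_right hrq.le
  set u := q / Nat.gcd q r with hu
  set v := r / Nat.gcd q r with hv
  clear_value u v
  have e : ((u - v : ℕ) : ℝ) = (u : ℝ) - (v : ℝ) := by
    push_cast [Nat.cast_sub hle]; ring
  refine nd_lt y _ ((v : ℤ) * a.1 - (u : ℤ) * b.1) ((v : ℤ) * a.2 - (u : ℤ) * b.2) ?_ ?_
  · rw [e]
    rw [← abs_neg]
    refine lt_of_eq_of_lt ?_ h1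
    congr 1
    push_cast
    ring
  · rw [e]
    rw [← abs_neg]
    refine lt_of_eq_of_lt ?_ h2
    congr 1
    push_cast
    ring

/-- the key arithmetic step: coincidences are killed by the choice of the numerators -/
lemma key_kept (y : ℝ × ℝ) (ψ : ℕ → ℝ) (q r : ℕ) (hr : 0 < r) (hrq : r < q)
    (hn : nn y ψ q r ≠ 0) (s : ℕ) (hs : Rec y s) (hsk : s ≤ q / Nat.gcd q r - r / Nat.gcd q r)
    (hsn : nd y s < 2 * eps ψ q r) (he : 3 * ((q / Nat.gcd q r : ℕ) : ℝ) * eps ψ q r ≤ 1) :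
    q / Nat.gcd q r < 1000 * s := by
  classical
  have hq : 0 < q := by omega
  obtain ⟨-, a, ha, b, hb, hc⟩ := nn_pos_nd y ψ q r hr hrq hn
  have hgpos := Nat.gcd_pos_of_pos_left r hq
  set u := q / Nat.gcd q r with hu
  set v := r / Nat.gcd q r with hv
  have hle : v ≤ u := Nat.div_le_div_right hrq.le
  have hcop : Nat.Coprime u v := Nat.coprime_div_gcd_div_gcd hgpos
  have huq : u ∣ q := Nat.div_dvd_of_dvd (Nat.gcd_dvd_left q r)
  have hcopz : IsCoprime (u : ℤ) (v : ℤ) := Nat.isCoprime_iff_coprime.2 hcop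
  have hs1 : (1 : ℝ) ≤ s := by exact_mod_cast hs.1
  have hsk' : (s : ℝ) ≤ (u : ℝ) - v := by
    have : s + v ≤ u := by omega
    have : ((s + v : ℕ) : ℝ) ≤ u := by exact_mod_cast this
    push_cast at this; linarith
  have heps : 0 < eps ψ q r := by
    have := nd_nonneg y s
    linarith
  have key : ∀ (z : ℝ) (c d : ℤ), |(s : ℝ) * z - round ((s : ℝ) * z)| < 2 * eps ψ q r →
      |(v : ℝ) * (c + z) - (u : ℝ) * (d + z)| < eps ψ q r →
      (u : ℤ) ∣ s * c + round ((s : ℝ) * z) := by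
    intro z c d h1 h2
    set w := round ((s : ℝ) * z) with hw
    have e : (((v : ℤ) * (s * c + w) - u * (s * d + w) : ℤ) : ℝ)
        = s * ((v : ℝ) * (c + z) - (u : ℝ) * (d + z)) + ((u : ℝ) - v) * ((s : ℝ) * z - w) := by
      push_cast
      ring
    have huv : 0 < (u : ℝ) - v := by linarith
    have h3 : |(((v : ℤ) * (s * c + w) - u * (s * d + w) : ℤ) : ℝ)| < 1 := by
      rw [e]
      calc |s * ((v : ℝ) * (c + z) - (u : ℝ) * (d + z)) + ((u : ℝ) - v) * ((s : ℝ) * z - w)|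
          ≤ |s * ((v : ℝ) * (c + z) - (u : ℝ) * (d + z))| + |((u : ℝ) - v) * ((s : ℝ) * z - w)| :=
            abs_add_le _ _
        _ = s * |(v : ℝ) * (c + z) - (u : ℝ) * (d + z)| + ((u : ℝ) - v) * |(s : ℝ) * z - w| := by
            rw [abs_mul, abs_mul, abs_of_pos huv, abs_of_pos (by linarith : (0 : ℝ) < s)]
        _ < s * eps ψ q r + ((u : ℝ) - v) * (2 * eps ψ q r) := by
            have a1 := mul_lt_mul_of_pos_left h2 (by linarith : (0 : ℝ) < s)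
            have a2 := mul_lt_mul_of_pos_left h1 huv
            linarith
        _ ≤ ((u : ℝ) - v) * eps ψ q r + ((u : ℝ) - v) * (2 * eps ψ q r) := by
            have := mul_le_mul_of_nonneg_right hsk' heps.le
            linarith
        _ = 3 * ((u : ℝ) - v) * eps ψ q r := by ring
        _ ≤ 3 * (u : ℝ) * eps ψ q r := by
            have : (0 : ℝ) ≤ v := by positivity
            nlinarith
        _ ≤ 1 := he
    have h4 : |((v : ℤ) * (s * c + w) - u * (s * d + w))| < 1 := by exact_mod_cast h3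
    have h5 : (v : ℤ) * (s * c + w) = u * (s * d + w) := by
      rw [abs_lt] at h4; omega
    have h6 : (u : ℤ) ∣ v * (s * c + w) := ⟨_, h5⟩
    exact hcopz.dvd_of_dvd_mul_left h6
  have h1 := close_norm y.1 ψ q r hq hr a.1 b.1 hc.1
  have h2 := close_norm y.2 ψ q r hq hr a.2 b.2 hc.2
  have d1 := key y.1 a.1 b.1 ((le_max_left _ _).trans_lt hsn) h1
  have d2 := key y.2 a.2 b.2 ((le_max_right _ _).trans_lt hsn) h2
  unfold AA at ha
  rw [mem_filter] at ha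
  exact ha.2 s hs u huq d1 d2

end Pool.Agent.H560_K2
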