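import Mathlib

set_option autoImplicit false

namespace Pool.Agent.H560_K2

open Finset

/-- sup-norm distance from `j • y` to the nearest integer point -/
noncomputable def nd (y : ℝ × ℝ) (j : ℕ) : ℝ :=
  max |(j : ℝ) * y.1 - round ((j : ℝ) * y.1)| |(j : ℝ) * y.2 - round ((j : ℝ) * y.2)|

lemma nd_nonneg (y : ℝ × ℝ) (j : ℕ) : 0 ≤ nd y j := le_max_of_le_left (abs_nonneg _)

lemma nd_le (y : ℝ × ℝ) (j : ℕ) (a b : ℤ) {t : ℝ} (h1 : |(j : ℝ) * y.1 - a| ≤ t)
    (h2 : |(j : ℝ) * y.2 - b| ≤ t) : nd y j ≤ t :=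
  max_le ((round_le _ _).trans h1) ((round_le _ _).trans h2)

lemma nd_lt (y : ℝ × ℝ) (j : ℕ) (a b : ℤ) {t : ℝ} (h1 : |(j : ℝ) * y.1 - a| < t)
    (h2 : |(j : ℝ) * y.2 - b| < t) : nd y j < t :=
  max_lt ((round_le _ _).trans_lt h1) ((round_le _ _).trans_lt h2)

/-- `s` is a record denominator: no smaller positive integer does at least as well. -/
def Rec (y : ℝ × ℝ) (s : ℕ) : Prop := 1 ≤ s ∧ ∀ j, 1 ≤ j → j < s → nd y s < nd y j

lemma nd_sub (y : ℝ × ℝ) {j k : ℕ} (hjk : j ≤ k) {a b : ℝ} (hj : nd y j < a) (hk : nd y k < b) :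
    nd y (k - j) < a + b := by
  have hj1 := (le_max_left _ _).trans_lt hj
  have hj2 := (le_max_right _ _).trans_lt hj
  have hk1 := (le_max_left _ _).trans_lt hk
  have hk2 := (le_max_right _ _).trans_lt hk
  have e : ((k - j : ℕ) : ℝ) = k - j := by push_cast [Nat.cast_sub hjk]; ring
  refine nd_lt y _ (round ((k : ℝ) * y.1) - round ((j : ℝ) * y.1))
    (round ((k : ℝ) * y.2) - round ((j : ℝ) * y.2)) ?_ ?_
  · rw [e]; push_cast
    rw [abs_lt] at hj1 hk1 ⊢
    constructor <;> linarith [hj1.1, hj1.2, hk1.1, hk1.2]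
  · rw [e]; push_cast
    rw [abs_lt] at hj2 hk2 ⊢
    constructor <;> linarith [hj2.1, hj2.2, hk2.1, hk2.2]

/-- no prime divides a record denominator and both nearest integers -/
lemma Rec.prim {y : ℝ × ℝ} {s : ℕ} (h : Rec y s) {p : ℕ} (hp : 2 ≤ p) (h0 : p ∣ s)
    (h1 : (p : ℤ) ∣ round ((s : ℝ) * y.1)) (h2 : (p : ℤ) ∣ round ((s : ℝ) * y.2)) : False := by
  obtain ⟨t, ht⟩ := h0
  obtain ⟨a, ha⟩ := h1
  obtain ⟨b, hb⟩ := h2
  have hs := h.1
  have ht1 : 1 ≤ t := by
    rcases Nat.eq_zero_or_pos t with h0 | h0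
    · rw [h0, mul_zero] at ht; omega
    · exact h0
  have hts : t < s := by rw [ht]; nlinarith
  have hlt := h.2 t ht1 hts
  have hpr : (2 : ℝ) ≤ p := by exact_mod_cast hp
  have hp0 : (0 : ℝ) < p := by linarith
  have e1 : (s : ℝ) = p * t := by exact_mod_cast ht
  have key : ∀ (z : ℝ) (m : ℤ), round ((s : ℝ) * z) = p * m →
      |(s : ℝ) * z - round ((s : ℝ) * z)| ≤ nd y s → |(t : ℝ) * z - m| ≤ nd y s := by
    intro z m hm hle
    rw [hm, e1] at hle
    push_cast at hle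
    have e2 : (p : ℝ) * t * z - p * m = p * (t * z - m) := by ring
    rw [e2, abs_mul, abs_of_pos hp0] at hle
    have := abs_nonneg ((t : ℝ) * z - m)
    nlinarith
  have := nd_le y t a b (key _ _ ha (le_max_left _ _)) (key _ _ hb (le_max_right _ _))
  linarith

/-- at most four records in a dyadic block -/
lemma rec_block {y : ℝ × ℝ} {X : ℕ} (hX : 1 ≤ X) (F : Finset ℕ) (hF : ∀ s ∈ F, Rec y s)
    (hFX : ∀ s ∈ F, X ≤ s ∧ s < 2 * X) : #F ≤ 4 := by
  classical
  by_contra hcon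
  push Not at hcon
  have hne : F.Nonempty := by
    rw [← Finset.card_pos]; omega
  obtain ⟨s1, hs1, hmin⟩ := F.exists_min_image id hne
  simp only [id] at hmin
  let φ : ℕ → Bool × Bool := fun s =>
    (decide (0 ≤ (s : ℝ) * y.1 - round ((s : ℝ) * y.1)), decide (0 ≤ (s : ℝ) * y.2 - round ((s : ℝ) * y.2)))
  have hcard : #(univ : Finset (Bool × Bool)) < #F := by
    have : #(univ : Finset (Bool × Bool)) = 4 := by decide
    omega
  obtain ⟨a, ha, b, hb, hab, hφ⟩ := Finset.exists_ne_map_eq_of_card_lt_of_maps_to hcard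
    (f := φ) (fun s _ => Finset.mem_coe.2 (Finset.mem_univ _))
  -- wlog a < b
  have key : ∀ a ∈ F, ∀ b ∈ F, a < b → φ a = φ b → False := by
    intro a ha b hb hlt hφ
    have hle : ∀ s ∈ F, nd y s ≤ nd y s1 := by
      intro s hs
      rcases Nat.eq_or_lt_of_le (hmin s hs) with h | h
      · rw [h]
      · exact ((hF s hs).2 s1 (hF s1 hs1).1 h).le
    have h1 := hle a ha
    have h2 := hle b hb
    have e : ((b - a : ℕ) : ℝ) = b - a := by push_cast [Nat.cast_sub hlt.le]; ring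
    have hsgn : ∀ (u v t : ℝ), |u| ≤ t → |v| ≤ t → (0 ≤ u ↔ 0 ≤ v) → |v - u| ≤ t := by
      intro u v t hu hv huv
      rw [abs_le] at hu hv ⊢
      by_cases h0 : 0 ≤ u
      · have := huv.1 h0
        constructor <;> linarith [hu.1, hu.2, hv.1, hv.2]
      · have h00 : ¬ 0 ≤ v := fun h => h0 (huv.2 h)
        push Not at h0 h00
        constructor <;> linarith [hu.1, hu.2, hv.1, hv.2]
    have hφ1 : (0 ≤ (a : ℝ) * y.1 - round ((a : ℝ) * y.1)) ↔ (0 ≤ (b : ℝ) * y.1 - round ((b : ℝ) * y.1)) := by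
      have := congrArg Prod.fst hφ
      simpa only [φ, decide_eq_decide] using this
    have hφ2 : (0 ≤ (a : ℝ) * y.2 - round ((a : ℝ) * y.2)) ↔ (0 ≤ (b : ℝ) * y.2 - round ((b : ℝ) * y.2)) := by
      have := congrArg Prod.snd hφ
      simpa only [φ, decide_eq_decide] using this
    have h3 := hsgn _ _ _ ((le_max_left _ _).trans h1) ((le_max_left _ _).trans h2) hφ1
    have h4 := hsgn _ _ _ ((le_max_right _ _).trans h1) ((le_max_right _ _).trans h2) hφ2
    have h5 : nd y (b - a) ≤ nd y s1 := by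
      refine nd_le y _ (round ((b : ℝ) * y.1) - round ((a : ℝ) * y.1))
        (round ((b : ℝ) * y.2) - round ((a : ℝ) * y.2)) ?_ ?_
      · rw [e]; push_cast
        have : ((b : ℝ) - a) * y.1 - (round ((b : ℝ) * y.1) - round ((a : ℝ) * y.1))
          = ((b : ℝ) * y.1 - round ((b : ℝ) * y.1)) - ((a : ℝ) * y.1 - round ((a : ℝ) * y.1)) := by ring
        rw [this]; exact h3
      · rw [e]; push_cast
        have : ((b : ℝ) - a) * y.2 - (round ((b : ℝ) * y.2) - round ((a : ℝ) * y.2))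
          = ((b : ℝ) * y.2 - round ((b : ℝ) * y.2)) - ((a : ℝ) * y.2 - round ((a : ℝ) * y.2)) := by ring
        rw [this]; exact h4
    have hlt2 : b - a < s1 := by
      have := hFX a ha; have := hFX b hb; have := hFX s1 hs1
      omega
    have := (hF s1 hs1).2 (b - a) (by omega) hlt2
    linarith
  rcases Nat.lt_or_gt_of_ne hab with h | h
  · exact key a ha b hb h hφ
  · exact key b hb a ha h hφ.symm

/-- the sum of the inverses of the records is at most `8` -/
lemma rec_sum {y : ℝ × ℝ} (F : Finset ℕ) (hF : ∀ s ∈ F, Rec y s) :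
    ∑ s ∈ F, (1 : ℝ) / s ≤ 8 := by
  classical
  obtain ⟨M, hM⟩ : ∃ M, ∀ s ∈ F, Nat.log 2 s < M :=
    ⟨F.sup (fun s => Nat.log 2 s) + 1, fun s hs => Nat.lt_succ_of_le
      (Finset.le_sup (f := fun s => Nat.log 2 s) hs)⟩
  have h1 : ∑ s ∈ F, (1 : ℝ) / s = ∑ n ∈ range M, ∑ s ∈ F with Nat.log 2 s = n, (1 : ℝ) / s := by
    rw [Finset.sum_fiberwise_of_maps_to]
    intro s hs
    exact mem_range.2 (hM s hs)
  rw [h1]
  have h2 : ∀ n ∈ range M, ∑ s ∈ F with Nat.log 2 s = n, (1 : ℝ) / s ≤ 4 * (1 / 2) ^ n := by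
    intro n _
    have h3 : ∀ s ∈ F.filter (fun s => Nat.log 2 s = n), (1 : ℝ) / s ≤ (1 / 2) ^ n := by
      intro s hs
      rw [mem_filter] at hs
      have h4 : 2 ^ n ≤ s := by
        rw [← hs.2]; exact Nat.pow_log_le_self 2 (by have := (hF s hs.1).1; omega)
      have h5 : (2 : ℝ) ^ n ≤ s := by exact_mod_cast h4
      rw [one_div_pow]
      exact one_div_le_one_div_of_le (by positivity) h5
    have h6 : #(F.filter (fun s => Nat.log 2 s = n)) ≤ 4 := by
      refine rec_block (y := y) (X := 2 ^ n) Nat.one_le_two_pow _ ?_ ?_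
      · intro s hs
        exact hF s (mem_filter.1 hs).1
      · intro s hs
        rw [mem_filter] at hs
        have h0 : s ≠ 0 := by have := (hF s hs.1).1; omega
        constructor
        · rw [← hs.2]; exact Nat.pow_log_le_self 2 h0
        · have := Nat.lt_pow_succ_log_self (b := 2) (by norm_num) s
          rw [hs.2, pow_succ] at this
          omega
    refine (Finset.sum_le_sum h3).trans ?_
    rw [Finset.sum_const, nsmul_eq_mul]
    have : (#(F.filter (fun s => Nat.log 2 s = n)) : ℝ) ≤ 4 := by exact_mod_cast h6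
    exact mul_le_mul_of_nonneg_right this (by positivity)
  refine (Finset.sum_le_sum h2).trans ?_
  rw [← Finset.mul_sum]
  have h7 : ∑ n ∈ range M, ((1 : ℝ) / 2) ^ n ≤ 2 := sum_geometric_two_le M
  linarith

/-- the first approximation of quality `δ` is a record -/
lemma exists_rec {y : ℝ × ℝ} {k : ℕ} (hk : 1 ≤ k) {δ : ℝ} (h : nd y k < δ) :
    ∃ s, Rec y s ∧ s ≤ k ∧ nd y s < δ ∧ ∀ j, 1 ≤ j → j < s → δ ≤ nd y j := by
  classical
  have hex : ∃ j, 1 ≤ j ∧ nd y j < δ := ⟨k, hk, h⟩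
  refine ⟨Nat.find hex, ⟨(Nat.find_spec hex).1, ?_⟩, Nat.find_le ⟨hk, h⟩, (Nat.find_spec hex).2, ?_⟩
  · intro j hj hlt
    have h1 := Nat.find_min hex hlt
    push Not at h1
    exact (Nat.find_spec hex).2.trans_le (h1 hj)
  · intro j hj hlt
    have h1 := Nat.find_min hex hlt
    push Not at h1
    exact h1 hj

end Pool.Agent.H560_K2
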