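import Pool.Agent.H560_K2.Trace2

set_option autoImplicit false

namespace Pool.Agent.H560_K2

open Finset

lemma trace_ind {Cτ η : ℝ} (hCτ : 0 ≤ Cτ)
    (hτ : ∀ n : ℕ, n ≠ 0 → (n.divisors.card : ℝ) ≤ Cτ * (n : ℝ) ^ η) (j : ℕ) :
    ∃ C : ℝ, 0 ≤ C ∧ ∀ (D : ℕ) (_ : 1 ≤ D) (R : Finset ℕ) (f : ℕ → ℝ) (_ : ∀ q, 0 ≤ f q),
      ∃ (ι : Type) (s : Finset ι) (α : ι → ℕ),
        (∀ x ∈ s, 0 < α x ∧ (α x : ℝ) ≤ (4 * (D : ℝ) ^ 2) ^ (2 ^ j)) ∧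
        (∀ n : ℕ, 0 < n → (#{x ∈ s | α x = n} : ℝ) ≤ C * (n : ℝ) ^ ((j + 1 : ℝ) * η)) ∧
        m2 s α ≤ (2 / (D : ℝ)) ^ (2 ^ j) ∧
        (∑ q ∈ R, ∑ r ∈ R, f q * f r * W D q r) ^ (2 ^ (j + 1)) ≤
          (∑ q ∈ R, f q ^ 2) ^ (2 ^ (j + 1) - 1) *
            ∑ q ∈ R, ∑ r ∈ R, f q * f r * kap s α q r := by
  classical
  induction j with
  | zero =>
    refine ⟨Cτ, hCτ, fun D hD R f hf => ⟨ℕ × ℕ, Ico D (2 * D) ×ˢ Ico 1 (2 * D),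
      fun p => p.1 * p.2, ?_, ?_, ?_, ?_⟩⟩
    · intro x hx
      rw [mem_product, mem_Ico, mem_Ico] at hx
      refine ⟨Nat.mul_pos (by omega) (by omega), ?_⟩
      rw [pow_zero, pow_one]
      have h1 : (x.1 : ℝ) ≤ 2 * D := by exact_mod_cast hx.1.2.le
      have h2 : (x.2 : ℝ) ≤ 2 * D := by exact_mod_cast hx.2.2.le
      push_cast
      calc (x.1 : ℝ) * x.2 ≤ (2 * D) * (2 * D) := mul_le_mul h1 h2 (by positivity) (by positivity)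
        _ = _ := by ring
    · intro n hn
      have := fiber_base D hτ n hn
      simpa using this
    · rw [pow_zero, pow_one]
      exact m2_base D hD
    · have := W_cs D R f hf
      simpa using this
  | succ j ih =>
    obtain ⟨C, hC, h⟩ := ih
    refine ⟨Cτ * C ^ 2, by positivity, fun D hD R f hf => ?_⟩
    obtain ⟨ι, s, α, h1, h2, h3, h4⟩ := h D hD R f hf
    have hF2 : 0 ≤ ∑ q ∈ R, f q ^ 2 := Finset.sum_nonneg fun q _ => sq_nonneg _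
    have hN : 0 ≤ ∑ q ∈ R, ∑ r ∈ R, f q * f r * W D q r :=
      Finset.sum_nonneg fun q _ => Finset.sum_nonneg fun r _ =>
        mul_nonneg (mul_nonneg (hf _) (hf _)) (W_nonneg _ _ _)
    refine ⟨ι × ι, s ×ˢ s, fun z => α z.1 * α z.2, ?_, ?_, ?_, ?_⟩
    · intro z hz
      rw [mem_product] at hz
      obtain ⟨a1, a2⟩ := h1 _ hz.1
      obtain ⟨b1, b2⟩ := h1 _ hz.2
      refine ⟨Nat.mul_pos a1 b1, ?_⟩
      push_cast
      calc (α z.1 : ℝ) * α z.2 ≤ (4 * (D : ℝ) ^ 2) ^ (2 ^ j) * (4 * (D : ℝ) ^ 2) ^ (2 ^ j) :=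
            mul_le_mul a2 b2 (by positivity) (by positivity)
        _ = _ := by
            rw [← pow_add]
            congr 1
            rw [pow_succ]; ring
    · intro n hn
      have := fiber_prod s α hC h2 hτ n hn
      have e : η + (j + 1 : ℝ) * η = (((j + 1 : ℕ) : ℝ) + 1) * η := by push_cast; ring
      rw [e] at this
      exact this
    · rw [m2_prod]
      have h0 : 0 ≤ m2 s α := Finset.sum_nonneg fun _ _ => by positivity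
      calc m2 s α ^ 2 ≤ ((2 / (D : ℝ)) ^ (2 ^ j)) ^ 2 := pow_le_pow_left₀ h0 h3 2
        _ = _ := by rw [← pow_mul, pow_succ]
    · have hK : 0 ≤ ∑ q ∈ R, ∑ r ∈ R, f q * f r * kap s α q r :=
        Finset.sum_nonneg fun q _ => Finset.sum_nonneg fun r _ =>
          mul_nonneg (mul_nonneg (hf _) (hf _)) (kap_nonneg _ _ _ _)
      have h5 := cs_step s α (fun x hx => (h1 x hx).1) R f hf
      have e1 : 2 ^ (j + 1 + 1) = 2 ^ (j + 1) * 2 := by rw [pow_succ]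
      have hp : 1 ≤ 2 ^ (j + 1) := Nat.one_le_two_pow
      have e2 : 2 ^ (j + 1 + 1) - 1 = (2 ^ (j + 1) - 1) * 2 + 1 := by omega
      have e5 : ∀ z : ℝ, z ^ (2 ^ (j + 1 + 1)) = (z ^ (2 ^ (j + 1))) ^ 2 := by
        intro z; rw [← pow_mul, ← e1]
      have e6 : ∀ z : ℝ, z ^ (2 ^ (j + 1 + 1) - 1) = (z ^ (2 ^ (j + 1) - 1)) ^ 2 * z := by
        intro z; rw [e2, pow_succ, pow_mul]
      rw [e5, e6]
      calc ((∑ q ∈ R, ∑ r ∈ R, f q * f r * W D q r) ^ 2 ^ (j + 1)) ^ 2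
          ≤ ((∑ q ∈ R, f q ^ 2) ^ (2 ^ (j + 1) - 1) *
            ∑ q ∈ R, ∑ r ∈ R, f q * f r * kap s α q r) ^ 2 :=
            pow_le_pow_left₀ (by positivity) h4 2
        _ = ((∑ q ∈ R, f q ^ 2) ^ (2 ^ (j + 1) - 1)) ^ 2 *
            (∑ q ∈ R, ∑ r ∈ R, f q * f r * kap s α q r) ^ 2 := by rw [mul_pow]
        _ ≤ ((∑ q ∈ R, f q ^ 2) ^ (2 ^ (j + 1) - 1)) ^ 2 *
            ((∑ q ∈ R, f q ^ 2) * ∑ q ∈ R, ∑ r ∈ R, f q * f r *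
              kap (s ×ˢ s) (fun z => α z.1 * α z.2) q r) :=
            mul_le_mul_of_nonneg_left h5 (by positivity)
        _ = _ := by ring

/-- The trace bound. -/
theorem trace_main : ∃ C : ℝ, 0 < C ∧ ∀ (D : ℕ) (_ : 1 ≤ D) (R : Finset ℕ) (_ : ∀ q ∈ R, 0 < q)
    (f : ℕ → ℝ) (_ : ∀ q, 0 ≤ f q),
    (∑ q ∈ R, ∑ r ∈ R, f q * f r * W D q r) ^ 32 ≤
      (∑ q ∈ R, f q ^ 2) ^ 32 * ((#R : ℝ) * (C / (D : ℝ) ^ 15)) := by
  classical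
  obtain ⟨Cτ, hCτ1, hτ⟩ := Pool.Agent.H373R2.T4.DivB.div_bound (δ := 1 / 160) (by norm_num)
  have hCτ : 0 ≤ Cτ := by linarith
  obtain ⟨C, hC, h⟩ := trace_ind hCτ hτ 3
  refine ⟨(Cτ * C ^ 2 + 1) * 2 * 2 ^ 16, by positivity, fun D hD R hR f hf => ?_⟩
  obtain ⟨ι, s, α, h1, h2, h3, h4⟩ := h D hD R f hf
  have hDr : (1 : ℝ) ≤ D := by exact_mod_cast hD
  have hD0 : (0 : ℝ) < D := by linarith
  have hF2 : 0 ≤ ∑ q ∈ R, f q ^ 2 := Finset.sum_nonneg fun q _ => sq_nonneg _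
  have hN : 0 ≤ ∑ q ∈ R, ∑ r ∈ R, f q * f r * W D q r :=
    Finset.sum_nonneg fun q _ => Finset.sum_nonneg fun r _ =>
      mul_nonneg (mul_nonneg (hf _) (hf _)) (W_nonneg _ _ _)
  have h5 := cs_last s α (fun x hx => (h1 x hx).1) R hR f
  -- energy bound
  have hfib := fiber_prod s α hC h2 hτ
  have hα : ∀ z ∈ s ×ˢ s, 0 < α z.1 * α z.2 ∧ ((α z.1 * α z.2 : ℕ) : ℝ) ≤ (4 * (D : ℝ) ^ 2) ^ 16 := by
    intro z hz
    rw [mem_product] at hz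
    obtain ⟨a1, a2⟩ := h1 _ hz.1
    obtain ⟨b1, b2⟩ := h1 _ hz.2
    refine ⟨Nat.mul_pos a1 b1, ?_⟩
    push_cast
    calc (α z.1 : ℝ) * α z.2 ≤ (4 * (D : ℝ) ^ 2) ^ (2 ^ 3) * (4 * (D : ℝ) ^ 2) ^ (2 ^ 3) :=
          mul_le_mul a2 b2 (by positivity) (by positivity)
      _ = _ := by rw [← pow_add]; norm_num
  have hen := en_le (s ×ˢ s) (fun z => α z.1 * α z.2) (C := Cτ * C ^ 2)
    (θ := 1 / 160 + (((3 : ℕ) : ℝ) + 1) * (1 / 160)) (Z := (4 * (D : ℝ) ^ 2) ^ 16)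
    (by positivity) (by positivity) hα hfib
  rw [m2_prod] at hen
  have e3 : ((4 * (D : ℝ) ^ 2) ^ 16) ^ ((1 : ℝ) / 160 + (((3 : ℕ) : ℝ) + 1) * (1 / 160)) = 2 * D := by
    have : (4 * (D : ℝ) ^ 2) ^ 16 = (2 * (D : ℝ)) ^ 32 := by ring
    rw [this, ← Real.rpow_natCast, ← Real.rpow_mul (by positivity)]
    norm_num
  rw [e3] at hen
  have hm0 : 0 ≤ m2 s α := Finset.sum_nonneg fun _ _ => by positivity
  have hm : m2 s α ^ 2 ≤ (2 / (D : ℝ)) ^ 16 := by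
    calc m2 s α ^ 2 ≤ ((2 / (D : ℝ)) ^ (2 ^ 3)) ^ 2 := pow_le_pow_left₀ hm0 h3 2
      _ = _ := by rw [← pow_mul]; norm_num
  have hen2 : en (s ×ˢ s) (fun z => α z.1 * α z.2) ≤
      (Cτ * C ^ 2 + 1) * 2 * 2 ^ 16 / (D : ℝ) ^ 15 := by
    refine hen.trans ?_
    calc Cτ * C ^ 2 * (2 * D) * m2 s α ^ 2 ≤ (Cτ * C ^ 2 + 1) * (2 * D) * (2 / (D : ℝ)) ^ 16 := by
          refine mul_le_mul ?_ hm (by positivity) (by positivity)
          refine mul_le_mul_of_nonneg_right (by linarith) (by positivity)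
      _ = _ := by
          field_simp
  have e4 : (∑ q ∈ R, ∑ r ∈ R, f q * f r * W D q r) ^ 32
      = ((∑ q ∈ R, ∑ r ∈ R, f q * f r * W D q r) ^ (2 ^ (3 + 1))) ^ 2 := by
    rw [← pow_mul]; norm_num
  rw [e4]
  have hK : 0 ≤ ∑ q ∈ R, ∑ r ∈ R, f q * f r * kap s α q r :=
    Finset.sum_nonneg fun q _ => Finset.sum_nonneg fun r _ =>
      mul_nonneg (mul_nonneg (hf _) (hf _)) (kap_nonneg _ _ _ _)
  calc ((∑ q ∈ R, ∑ r ∈ R, f q * f r * W D q r) ^ (2 ^ (3 + 1))) ^ 2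
      ≤ ((∑ q ∈ R, f q ^ 2) ^ (2 ^ (3 + 1) - 1) *
            ∑ q ∈ R, ∑ r ∈ R, f q * f r * kap s α q r) ^ 2 :=
        pow_le_pow_left₀ (by positivity) h4 2
    _ = ((∑ q ∈ R, f q ^ 2) ^ 15) ^ 2 * (∑ q ∈ R, ∑ r ∈ R, f q * f r * kap s α q r) ^ 2 := by
        rw [mul_pow]; norm_num
    _ ≤ ((∑ q ∈ R, f q ^ 2) ^ 15) ^ 2 *
        ((∑ q ∈ R, f q ^ 2) ^ 2 * ((#R : ℝ) * en (s ×ˢ s) (fun z => α z.1 * α z.2))) :=
        mul_le_mul_of_nonneg_left h5 (by positivity)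
    _ = (∑ q ∈ R, f q ^ 2) ^ 32 * ((#R : ℝ) * en (s ×ˢ s) (fun z => α z.1 * α z.2)) := by ring
    _ ≤ _ := by
        refine mul_le_mul_of_nonneg_left ?_ (by positivity)
        exact mul_le_mul_of_nonneg_left hen2 (by positivity)

end Pool.Agent.H560_K2
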