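import Pool.Agent.H560_K2.Over
import Pool.Agent.H560_K2.Trace3

set_option autoImplicit false

namespace Pool.Agent.H560_K2

open Finset

/-- reduced first entry -/
def U (q r : ℕ) : ℕ := q / Nat.gcd q r

/-- reduced second entry -/
def V (q r : ℕ) : ℕ := r / Nat.gcd q r

lemma U_mul (q r : ℕ) : U q r * Nat.gcd q r = q := Nat.div_mul_cancel (Nat.gcd_dvd_left q r)
lemma V_mul (q r : ℕ) : V q r * Nat.gcd q r = r := Nat.div_mul_cancel (Nat.gcd_dvd_right q r)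

lemma U_pos {q r : ℕ} (hq : 0 < q) : 0 < U q r := by
  have h := U_mul q r
  rcases Nat.eq_zero_or_pos (U q r) with h0 | h0
  · rw [h0, zero_mul] at h; omega
  · exact h0

lemma V_pos {q r : ℕ} (hr : 0 < r) : 0 < V q r := by
  have h := V_mul q r
  rcases Nat.eq_zero_or_pos (V q r) with h0 | h0
  · rw [h0, zero_mul] at h; omega
  · exact h0

lemma V_lt_U {q r : ℕ} (hrq : r < q) : V q r < U q r := by
  by_contra h
  push Not at h
  have h3 := Nat.mul_le_mul_right (Nat.gcd q r) h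
  rw [U_mul, V_mul] at h3
  omega

lemma inj_left {q r r' : ℕ} (hq : 0 < q) (hU : U q r = U q r') (hV : V q r = V q r') : r = r' := by
  have h1 := U_mul q r
  have h2 := U_mul q r'
  rw [← hU] at h2
  have hg : Nat.gcd q r = Nat.gcd q r' := Nat.eq_of_mul_eq_mul_left (U_pos hq) (h1.trans h2.symm)
  calc r = V q r * Nat.gcd q r := (V_mul q r).symm
    _ = V q r' * Nat.gcd q r' := by rw [hV, hg]
    _ = r' := V_mul q r'

lemma inj_right {q q' r : ℕ} (hr : 0 < r) (hU : U q r = U q' r) (hV : V q r = V q' r) : q = q' := by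
  have h1 := V_mul q r
  have h2 := V_mul q' r
  rw [← hV] at h2
  have hg : Nat.gcd q r = Nat.gcd q' r := Nat.eq_of_mul_eq_mul_left (V_pos hr) (h1.trans h2.symm)
  calc q = U q r * Nat.gcd q r := (U_mul q r).symm
    _ = U q' r * Nat.gcd q' r := by rw [hU, hg]
    _ = q' := U_mul q' r

/-- the pairs controlled by spacing -/
def P1 (y : ℝ × ℝ) (ψ : ℕ → ℝ) (q r : ℕ) : Prop :=
  nd y (U q r - V q r) < eps ψ q r ∧ ∀ j, 1 ≤ j → j ^ 2 < U q r → 2 * eps ψ q r ≤ nd y j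

/-- the pairs controlled by the trace bound -/
def Bad (ψ : ℕ → ℝ) (q r : ℕ) : Prop := eps ψ q r < 1 / 4 ∧ 1 < 3 * (U q r : ℝ) * eps ψ q r

lemma tt_nonneg (y : ℝ × ℝ) (ψ : ℕ → ℝ) (q r : ℕ) : 0 ≤ tt y ψ q r := by
  unfold tt; positivity

open scoped Classical in
lemma tt_class (y : ℝ × ℝ) (ψ : ℕ → ℝ) (hψ : ∀ q, 0 ≤ ψ q) (q r : ℕ) (hr : 0 < r) (hrq : r < q) :
    tt y ψ q r ≤ 144 * (ψ q ^ 2 * ψ r ^ 2) + (if P1 y ψ q r then ψ q ^ 2 / (U q r : ℝ) ^ 2 else 0)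
      + (if U q r < 1000000 then ψ q ^ 2 else 0) + (if Bad ψ q r then tt y ψ q r else 0) := by
  have hq : 0 < q := by omega
  have htt : 0 ≤ tt y ψ q r := tt_nonneg y ψ q r
  have hA : 0 ≤ 144 * (ψ q ^ 2 * ψ r ^ 2) := by positivity
  have hB : 0 ≤ (if P1 y ψ q r then ψ q ^ 2 / (U q r : ℝ) ^ 2 else 0) := by
    split_ifs <;> positivity
  have hC : 0 ≤ (if U q r < 1000000 then ψ q ^ 2 else (0 : ℝ)) := by split_ifs <;> positivity
  have hD : 0 ≤ (if Bad ψ q r then tt y ψ q r else 0) := by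
    split_ifs
    · exact htt
    · exact le_rfl
  by_cases he : 1 / 4 ≤ eps ψ q r
  · have := tt_large y ψ hψ q r hq hr he
    linarith
  push Not at he
  by_cases hbad : Bad ψ q r
  · rw [if_pos hbad]; linarith
  have hu : 3 * (U q r : ℝ) * eps ψ q r ≤ 1 := by
    by_contra hcon
    push Not at hcon
    exact hbad ⟨he, hcon⟩
  by_cases hn : nn y ψ q r = 0
  · have : tt y ψ q r = 0 := by unfold tt; rw [hn]; simp
    linarith
  obtain ⟨hnd, -⟩ := nn_pos_nd y ψ q r hr hrq hn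
  have hnd : nd y (U q r - V q r) < eps ψ q r := hnd
  have hVU := V_lt_U hrq
  have hk : 1 ≤ U q r - V q r := by omega
  have heps : 0 < eps ψ q r := (nd_nonneg y _).trans_lt hnd
  have hnd2 : nd y (U q r - V q r) < 2 * eps ψ q r := by linarith
  obtain ⟨s, hs, hsk, hsn, hmin⟩ := exists_rec hk hnd2
  obtain ⟨ht1, -, -⟩ := tt_small y ψ hψ q r hq hr he
  have ht : tt y ψ q r ≤ ψ q ^ 2 / (U q r : ℝ) ^ 2 := by rw [← div_pow]; exact ht1
  by_cases hsu : s ^ 2 < U q r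
  · have hkey : U q r < 1000 * s := key_kept y ψ q r hr hrq hn s hs hsk hsn hu
    have hs1000 : s < 1000 := by nlinarith
    have hlt : U q r < 1000000 := by omega
    rw [if_pos hlt]
    have h1 : (1 : ℝ) ≤ U q r := by exact_mod_cast U_pos hq
    have : ψ q ^ 2 / (U q r : ℝ) ^ 2 ≤ ψ q ^ 2 := div_le_self (sq_nonneg _) (one_le_pow₀ h1)
    linarith
  · push Not at hsu
    have hP : P1 y ψ q r := by
      refine ⟨hnd, fun j hj hju => hmin j hj ?_⟩
      by_contra hcon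
      push Not at hcon
      have := Nat.pow_le_pow_left hcon 2
      omega
    rw [if_pos hP]
    linarith

open scoped Classical in
lemma P1_count (y : ℝ × ℝ) (ψ : ℕ → ℝ) (X : Finset ℕ) (hX : ∀ r ∈ X, 0 < r) (q u : ℕ)
    (hq : 0 < q) (hu : 0 < u) :
    (#{r ∈ X | (r < q ∧ P1 y ψ q r) ∧ U q r = u}) ^ 2 ≤ u := by
  classical
  set R := {r ∈ X | (r < q ∧ P1 y ψ q r) ∧ U q r = u} with hR
  have hex : ∃ n : ℕ, u ≤ n ^ 2 := ⟨u, by nlinarith⟩
  obtain ⟨Y, hY, hYmin⟩ : ∃ Y : ℕ, u ≤ Y ^ 2 ∧ ∀ j < Y, j ^ 2 < u := by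
    refine ⟨Nat.find hex, Nat.find_spec hex, fun j hj => ?_⟩
    have := Nat.find_min hex hj
    omega
  have hYpos : 0 < Y := by
    rcases Nat.eq_zero_or_pos Y with h | h
    · rw [h] at hY; simp at hY; omega
    · exact h
  have hmem : ∀ r ∈ R, V q r < u ∧ nd y (u - V q r) < eps ψ q r ∧
      (∀ j, 1 ≤ j → j ^ 2 < u → 2 * eps ψ q r ≤ nd y j) ∧ 0 < V q r ∧ U q r = u := by
    intro r hr
    rw [hR, mem_filter] at hr
    obtain ⟨hrX, ⟨hrq, hP1, hP2⟩, hUr⟩ := hr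
    have := V_lt_U hrq
    rw [hUr] at this hP1 hP2
    exact ⟨this, hP1, hP2, V_pos (hX r hrX), hUr⟩
  have hlt : ∀ r ∈ R, ∀ r' ∈ R, (u - V q r) < (u - V q r') →
      (u - V q r) / Y = (u - V q r') / Y → False := by
    intro r hr r' hr' hlt heq
    obtain ⟨-, h1, h2, -⟩ := hmem r hr
    obtain ⟨-, h1', h2', -⟩ := hmem r' hr'
    have h3 := nd_sub y hlt.le h1 h1'
    have h4 : (u - V q r') - (u - V q r) < Y := by
      have a1 := Nat.div_add_mod (u - V q r) Y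
      have a2 := Nat.div_add_mod (u - V q r') Y
      have a3 := Nat.mod_lt (u - V q r') hYpos
      rw [heq] at a1
      omega
    have h5 := hYmin _ h4
    have h6 : 1 ≤ (u - V q r') - (u - V q r) := by omega
    have h7 := h2 _ h6 h5
    have h8 := h2' _ h6 h5
    linarith
  have hcard : #R ≤ #(Icc 1 ((u - 1) / Y)) := by
    refine card_le_card_of_injOn (fun r => (u - V q r) / Y) ?_ ?_
    · intro r hr
      rw [mem_coe] at hr
      obtain ⟨hV, h1, h2, hV0, -⟩ := hmem r hr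
      rw [mem_coe, mem_Icc]
      constructor
      · simp only
        rw [Nat.one_le_div_iff hYpos]
        by_contra hcon
        push Not at hcon
        have := h2 _ (by omega) (hYmin _ hcon)
        have := nd_nonneg y (u - V q r)
        linarith
      · exact Nat.div_le_div_right (by omega)
    · intro r hr r' hr' heq
      rw [mem_coe] at hr hr'
      simp only at heq
      rcases Nat.lt_trichotomy (u - V q r) (u - V q r') with h | h | h
      · exact (hlt r hr r' hr' h heq).elim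
      · obtain ⟨hV, -, -, -, hU⟩ := hmem r hr
        obtain ⟨hV', -, -, -, hU'⟩ := hmem r' hr'
        exact inj_left hq (hU.trans hU'.symm) (by omega)
      · exact (hlt r' hr' r hr h heq.symm).elim
  rw [Nat.card_Icc, Nat.add_sub_cancel] at hcard
  have h1 : #R * Y ≤ u := by
    have := Nat.mul_le_mul_right Y hcard
    have h2 := Nat.div_mul_le_self (u - 1) Y
    omega
  have h2 : (#R) ^ 2 * u ≤ u * u := by
    calc (#R) ^ 2 * u ≤ (#R) ^ 2 * Y ^ 2 := Nat.mul_le_mul_left _ hY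
      _ = (#R * Y) * (#R * Y) := by ring
      _ ≤ u * u := Nat.mul_le_mul h1 h1
  exact Nat.le_of_mul_le_mul_right h2 hu

lemma summ_aux : Summable (fun u : ℕ => Real.sqrt u / (u : ℝ) ^ 2) := by
  have h := (Real.summable_one_div_nat_rpow (p := 3 / 2)).2 (by norm_num)
  refine h.congr (fun u => ?_)
  rcases Nat.eq_zero_or_pos u with h0 | h0
  · subst h0
    simp
  · have hu : (0 : ℝ) < u := by exact_mod_cast h0
    rw [Real.sqrt_eq_rpow, ← Real.rpow_natCast, ← Real.rpow_sub hu, one_div, ← Real.rpow_neg hu.le]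
    norm_num

open scoped Classical in
lemma sum_P1 : ∃ C0 : ℝ, 0 ≤ C0 ∧ ∀ (y : ℝ × ℝ) (ψ : ℕ → ℝ) (X : Finset ℕ) (_ : ∀ r ∈ X, 0 < r)
    (q : ℕ) (_ : 0 < q),
    ∑ r ∈ X with r < q, (if P1 y ψ q r then ψ q ^ 2 / (U q r : ℝ) ^ 2 else 0) ≤ C0 * ψ q ^ 2 := by
  refine ⟨∑' u : ℕ, Real.sqrt u / (u : ℝ) ^ 2, tsum_nonneg (fun u => by positivity), ?_⟩
  intro y ψ X hX q hq
  rw [← Finset.sum_filter, Finset.filter_filter]
  have h1 : ∑ r ∈ X with (r < q ∧ P1 y ψ q r), ψ q ^ 2 / (U q r : ℝ) ^ 2 =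
      ∑ u ∈ range (q + 1), ∑ r ∈ (X.filter (fun r => r < q ∧ P1 y ψ q r)) with U q r = u,
        ψ q ^ 2 / (U q r : ℝ) ^ 2 := by
    rw [Finset.sum_fiberwise_of_maps_to]
    intro r _
    rw [mem_range]
    have : U q r ≤ q := Nat.div_le_self _ _
    omega
  rw [h1]
  have h2 : ∀ u ∈ range (q + 1), ∑ r ∈ (X.filter (fun r => r < q ∧ P1 y ψ q r)) with U q r = u,
        ψ q ^ 2 / (U q r : ℝ) ^ 2 ≤ ψ q ^ 2 * (Real.sqrt u / (u : ℝ) ^ 2) := by
    intro u _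
    rw [Finset.filter_filter]
    rcases Nat.eq_zero_or_pos u with h0 | h0
    · subst h0
      rw [Finset.sum_eq_zero]
      · positivity
      · intro r hr
        rw [mem_filter] at hr
        have := U_pos (r := r) hq
        omega
    · have h3 : ∀ r ∈ X.filter (fun r => (r < q ∧ P1 y ψ q r) ∧ U q r = u),
          ψ q ^ 2 / (U q r : ℝ) ^ 2 = ψ q ^ 2 / (u : ℝ) ^ 2 := by
        intro r hr
        rw [mem_filter] at hr
        rw [hr.2.2]
      rw [Finset.sum_congr rfl h3, Finset.sum_const, nsmul_eq_mul]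
      have h4 := P1_count y ψ X hX q u hq h0
      have h5 : (#(X.filter (fun r => (r < q ∧ P1 y ψ q r) ∧ U q r = u)) : ℝ) ≤ Real.sqrt u := by
        apply Real.le_sqrt_of_sq_le
        exact_mod_cast h4
      have hu : (0 : ℝ) < u := by exact_mod_cast h0
      calc (#(X.filter (fun r => (r < q ∧ P1 y ψ q r) ∧ U q r = u)) : ℝ) * (ψ q ^ 2 / (u : ℝ) ^ 2)
          ≤ Real.sqrt u * (ψ q ^ 2 / (u : ℝ) ^ 2) := mul_le_mul_of_nonneg_right h5 (by positivity)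
        _ = _ := by ring
  refine (Finset.sum_le_sum h2).trans ?_
  rw [← Finset.mul_sum, mul_comm]
  refine mul_le_mul_of_nonneg_right ?_ (sq_nonneg _)
  exact summ_aux.sum_le_tsum _ (fun u _ => by positivity)

open scoped Classical in
lemma sum_small (ψ : ℕ → ℝ) (X : Finset ℕ) (q : ℕ) (hq : 0 < q) :
    ∑ r ∈ X with r < q, (if U q r < 1000000 then ψ q ^ 2 else 0) ≤ 10 ^ 12 * ψ q ^ 2 := by
  rw [← Finset.sum_filter, Finset.filter_filter, Finset.sum_const, nsmul_eq_mul]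
  refine mul_le_mul_of_nonneg_right ?_ (sq_nonneg _)
  have h : #(X.filter (fun r => r < q ∧ U q r < 1000000)) ≤ #(range 1000000 ×ˢ range 1000000) := by
    refine card_le_card_of_injOn (fun r => (U q r, V q r)) ?_ ?_
    · intro r hr
      rw [mem_coe, mem_filter] at hr
      have := V_lt_U hr.2.1
      rw [mem_coe, mem_product, mem_range, mem_range]
      exact ⟨hr.2.2, by simp only; omega⟩
    · intro r _ r' _ h
      simp only [Prod.mk.injEq] at h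
      exact inj_left hq h.1 h.2
  rw [card_product, card_range] at h
  have h2 : (#(X.filter (fun r => r < q ∧ U q r < 1000000)) : ℝ) ≤ ((1000000 * 1000000 : ℕ) : ℝ) := by
    exact_mod_cast h
  refine h2.trans ?_
  norm_num

lemma eps_def (ψ : ℕ → ℝ) (q r : ℕ) : eps ψ q r = (V q r : ℝ) * ψ q + (U q r : ℝ) * ψ r := rfl

lemma tt_small' (y : ℝ × ℝ) (ψ : ℕ → ℝ) (hψ : ∀ q, 0 ≤ ψ q) (q r : ℕ) (hq : 0 < q) (hr : 0 < r)
    (he : eps ψ q r < 1 / 4) :
    tt y ψ q r ≤ ψ q ^ 2 ∧ tt y ψ q r ≤ ψ r ^ 2 ∧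
    tt y ψ q r ≤ ψ q * ψ r * (1 / ((U q r : ℝ) * V q r)) := by
  obtain ⟨h1, h2, h3⟩ := tt_small y ψ hψ q r hq hr he
  have hU : (1 : ℝ) ≤ U q r := by exact_mod_cast U_pos hq
  have hV : (1 : ℝ) ≤ V q r := by exact_mod_cast V_pos hr
  refine ⟨h1.trans ?_, h2.trans ?_, h3.trans ?_⟩
  · exact pow_le_pow_left₀ (div_nonneg (hψ q) (by positivity)) (div_le_self (hψ q) hU) 2
  · exact pow_le_pow_left₀ (div_nonneg (hψ r) (by positivity)) (div_le_self (hψ r) hV) 2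
  · apply le_of_eq
    show ψ q / (U q r : ℝ) * (ψ r / (V q r : ℝ)) = _
    field_simp

lemma bad_large (ψ : ℕ → ℝ) (hψ : ∀ q, 0 ≤ ψ q) (q r D : ℕ) (hD : 0 < D) (hrq : r < q)
    (hb : Bad ψ q r) (hU : U q r < 2 * D) :
    1 / (24 * (D : ℝ) ^ 2) < ψ q ∨ 1 / (24 * (D : ℝ) ^ 2) < ψ r := by
  by_contra hcon
  push Not at hcon
  obtain ⟨h1, h2⟩ := hcon
  have hVU : (V q r : ℝ) ≤ U q r := by exact_mod_cast (V_lt_U hrq).le
  have hDr : (0 : ℝ) < D := by exact_mod_cast hD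
  have hUD : (U q r : ℝ) < 2 * D := by exact_mod_cast hU
  have hU0 : (0 : ℝ) ≤ U q r := by positivity
  have hV0 : (0 : ℝ) ≤ V q r := by positivity
  have h3 : eps ψ q r ≤ U q r * (2 * (1 / (24 * (D : ℝ) ^ 2))) := by
    rw [eps_def]
    have a1 : (V q r : ℝ) * ψ q ≤ U q r * (1 / (24 * (D : ℝ) ^ 2)) :=
      mul_le_mul hVU h1 (hψ q) hU0
    have a2 : (U q r : ℝ) * ψ r ≤ U q r * (1 / (24 * (D : ℝ) ^ 2)) :=
      mul_le_mul_of_nonneg_left h2 hU0
    linarith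
  have h4 := hb.2
  have h5 : 3 * (U q r : ℝ) * eps ψ q r ≤ 3 * (U q r : ℝ) * (U q r * (2 * (1 / (24 * (D : ℝ) ^ 2)))) :=
    mul_le_mul_of_nonneg_left h3 (by positivity)
  have h6 : 3 * (U q r : ℝ) * (U q r * (2 * (1 / (24 * (D : ℝ) ^ 2)))) =
      (U q r : ℝ) ^ 2 / (4 * (D : ℝ) ^ 2) := by field_simp; ring
  have h7 : (U q r : ℝ) ^ 2 / (4 * (D : ℝ) ^ 2) ≤ 1 := by
    rw [div_le_one (by positivity)]
    nlinarith
  linarith

open scoped Classical in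
lemma bad_j {C : ℝ} (hC : 0 < C) (htr : ∀ (D : ℕ) (_ : 1 ≤ D) (R : Finset ℕ) (_ : ∀ q ∈ R, 0 < q)
    (f : ℕ → ℝ) (_ : ∀ q, 0 ≤ f q),
    (∑ q ∈ R, ∑ r ∈ R, f q * f r * W D q r) ^ 32 ≤
      (∑ q ∈ R, f q ^ 2) ^ 32 * ((#R : ℝ) * (C / (D : ℝ) ^ 15)))
    (y : ℝ × ℝ) (ψ : ℕ → ℝ) (hψ : ∀ q, 0 ≤ ψ q) (X : Finset ℕ) (hX : ∀ r ∈ X, 0 < r)
    (hS : ∑ q ∈ X, ψ q ^ 2 ≤ 2) (j : ℕ) :
    ∑ p ∈ X ×ˢ X with (p.2 < p.1 ∧ Bad ψ p.1 p.2) ∧ Nat.log 2 (U p.1 p.2) = j, tt y ψ p.1 p.2 ≤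
      9216 * (1 / 2) ^ j + (1 + 2 ^ 33 * C) * (9 / 10) ^ j := by
  set D : ℕ := 2 ^ j with hD
  have hD1 : 1 ≤ D := Nat.one_le_two_pow
  have hDr : (1 : ℝ) ≤ D := by exact_mod_cast hD1
  have hD0 : (0 : ℝ) < D := by linarith
  set P := {p ∈ X ×ˢ X | (p.2 < p.1 ∧ Bad ψ p.1 p.2) ∧ Nat.log 2 (U p.1 p.2) = j} with hP
  have hmem : ∀ p ∈ P, p.1 ∈ X ∧ p.2 ∈ X ∧ p.2 < p.1 ∧ Bad ψ p.1 p.2 ∧ D ≤ U p.1 p.2 ∧
      U p.1 p.2 < 2 * D := by
    intro p hp
    rw [hP, mem_filter, mem_product] at hp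
    obtain ⟨⟨h1, h2⟩, ⟨h3, h4⟩, h5⟩ := hp
    have hU := U_pos (r := p.2) (hX _ h1)
    refine ⟨h1, h2, h3, h4, ?_, ?_⟩
    · rw [hD, ← h5]; exact Nat.pow_log_le_self 2 hU.ne'
    · have := Nat.lt_pow_succ_log_self (b := 2) (by norm_num) (U p.1 p.2)
      rw [h5, pow_succ] at this
      omega
  set R := {z ∈ X | 1 / (D : ℝ) ^ 7 ≤ ψ z ^ 2} with hR
  set L := {z ∈ X | 1 / (24 * (D : ℝ) ^ 2) < ψ z} with hL
  have hLcard : (#L : ℝ) ≤ 1152 * (D : ℝ) ^ 4 := by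
    have h1 : (#L : ℝ) * (1 / (24 * (D : ℝ) ^ 2)) ^ 2 ≤ ∑ z ∈ L, ψ z ^ 2 := by
      rw [← nsmul_eq_mul]
      refine Finset.card_nsmul_le_sum _ _ _ (fun z hz => ?_)
      rw [hL, mem_filter] at hz
      exact pow_le_pow_left₀ (by positivity) hz.2.le 2
    have h2 : ∑ z ∈ L, ψ z ^ 2 ≤ 2 :=
      (Finset.sum_le_sum_of_subset_of_nonneg (filter_subset _ _) (fun _ _ _ => sq_nonneg _)).trans hS
    have h3 : (#L : ℝ) * (1 / (24 * (D : ℝ) ^ 2)) ^ 2 = #L / (576 * (D : ℝ) ^ 4) := by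
      field_simp; ring
    rw [h3] at h1
    have h4 := h1.trans h2
    rw [div_le_iff₀ (by positivity)] at h4
    linarith
  have hRcard : (#R : ℝ) ≤ 2 * (D : ℝ) ^ 7 := by
    have h1 : (#R : ℝ) * (1 / (D : ℝ) ^ 7) ≤ ∑ z ∈ R, ψ z ^ 2 := by
      rw [← nsmul_eq_mul]
      refine Finset.card_nsmul_le_sum _ _ _ (fun z hz => ?_)
      rw [hR, mem_filter] at hz
      exact hz.2
    have h2 : ∑ z ∈ R, ψ z ^ 2 ≤ 2 :=
      (Finset.sum_le_sum_of_subset_of_nonneg (filter_subset _ _) (fun _ _ _ => sq_nonneg _)).trans hS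
    have h4 := h1.trans h2
    rw [mul_one_div, div_le_iff₀ (by positivity)] at h4
    linarith
  -- number of pairs
  have hPcard : (#P : ℝ) ≤ 9216 * (D : ℝ) ^ 6 := by
    have hsub : P ⊆ P.filter (fun p => p.1 ∈ L) ∪ P.filter (fun p => p.2 ∈ L) := by
      intro p hp
      obtain ⟨h1, h2, h3, h4, h5, h6⟩ := hmem p hp
      rw [mem_union]
      rcases bad_large ψ hψ p.1 p.2 D (by omega) h3 h4 h6 with h | h
      · exact Or.inl (mem_filter.2 ⟨hp, mem_filter.2 ⟨h1, h⟩⟩)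
      · exact Or.inr (mem_filter.2 ⟨hp, mem_filter.2 ⟨h2, h⟩⟩)
    have hc1 : #(P.filter (fun p => p.1 ∈ L)) ≤ #(L ×ˢ (range (2 * D) ×ˢ range (2 * D))) := by
      refine card_le_card_of_injOn (fun p => (p.1, (U p.1 p.2, V p.1 p.2))) ?_ ?_
      · intro p hp
        rw [mem_coe, mem_filter] at hp
        obtain ⟨h1, h2, h3, h4, h5, h6⟩ := hmem p hp.1
        have := V_lt_U h3
        rw [mem_coe, mem_product, mem_product, mem_range, mem_range]
        exact ⟨hp.2, h6, by simp only; omega⟩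
      · intro p hp p' hp' h
        rw [mem_coe, mem_filter] at hp hp'
        obtain ⟨h1, h2, h3, h4, h5, h6⟩ := hmem p hp.1
        simp only [Prod.mk.injEq] at h
        obtain ⟨e1, e2, e3⟩ := h
        rw [← e1] at e2 e3
        exact Prod.ext e1 (inj_left (hX _ h1) e2 e3)
    have hc2 : #(P.filter (fun p => p.2 ∈ L)) ≤ #(L ×ˢ (range (2 * D) ×ˢ range (2 * D))) := by
      refine card_le_card_of_injOn (fun p => (p.2, (U p.1 p.2, V p.1 p.2))) ?_ ?_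
      · intro p hp
        rw [mem_coe, mem_filter] at hp
        obtain ⟨h1, h2, h3, h4, h5, h6⟩ := hmem p hp.1
        have := V_lt_U h3
        rw [mem_coe, mem_product, mem_product, mem_range, mem_range]
        exact ⟨hp.2, h6, by simp only; omega⟩
      · intro p hp p' hp' h
        rw [mem_coe, mem_filter] at hp hp'
        obtain ⟨h1, h2, h3, h4, h5, h6⟩ := hmem p hp.1
        simp only [Prod.mk.injEq] at h
        obtain ⟨e1, e2, e3⟩ := h
        rw [← e1] at e2 e3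
        exact Prod.ext (inj_right (hX _ h2) e2 e3) e1
    rw [card_product, card_product, card_range] at hc1 hc2
    have h1 := (card_le_card hsub).trans (card_union_le _ _)
    have h2 : #P ≤ 2 * (#L * (2 * D * (2 * D))) := by omega
    have h3 : (#P : ℝ) ≤ 2 * (#L * (2 * D * (2 * D))) := by exact_mod_cast h2
    calc (#P : ℝ) ≤ 8 * (D : ℝ) ^ 2 * #L := by linarith
      _ ≤ 8 * (D : ℝ) ^ 2 * (1152 * (D : ℝ) ^ 4) := mul_le_mul_of_nonneg_left hLcard (by positivity)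
      _ = _ := by ring
  -- splitting
  rw [← Finset.sum_filter_add_sum_filter_not P (fun p => ¬ (p.1 ∈ R ∧ p.2 ∈ R))]
  refine add_le_add ?_ ?_
  · have h1 : ∀ p ∈ P.filter (fun p => ¬ (p.1 ∈ R ∧ p.2 ∈ R)), tt y ψ p.1 p.2 ≤ 1 / (D : ℝ) ^ 7 := by
      intro p hp
      rw [mem_filter] at hp
      obtain ⟨h1, h2, h3, h4, h5, h6⟩ := hmem p hp.1
      obtain ⟨t1, t2, -⟩ := tt_small' y ψ hψ p.1 p.2 (hX _ h1) (hX _ h2) h4.1
      by_cases hR1 : p.1 ∈ R
      · have hR2 : p.2 ∉ R := fun h => hp.2 ⟨hR1, h⟩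
        rw [hR, mem_filter] at hR2
        push Not at hR2
        exact t2.trans (hR2 h2).le
      · rw [hR, mem_filter] at hR1
        push Not at hR1
        exact t1.trans (hR1 h1).le
    refine (Finset.sum_le_card_nsmul _ _ _ h1).trans ?_
    rw [nsmul_eq_mul]
    have h2 : (#(P.filter (fun p => ¬ (p.1 ∈ R ∧ p.2 ∈ R))) : ℝ) ≤ 9216 * (D : ℝ) ^ 6 := by
      refine le_trans ?_ hPcard
      exact_mod_cast card_filter_le _ _
    calc (#(P.filter (fun p => ¬ (p.1 ∈ R ∧ p.2 ∈ R))) : ℝ) * (1 / (D : ℝ) ^ 7)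
        ≤ 9216 * (D : ℝ) ^ 6 * (1 / (D : ℝ) ^ 7) := mul_le_mul_of_nonneg_right h2 (by positivity)
      _ = 9216 * (1 / (D : ℝ)) := by field_simp
      _ = _ := by rw [hD]; push_cast; rw [one_div_pow]
  · -- the trace part
    set T := ∑ q ∈ R, ∑ r ∈ R, ψ q * ψ r * W D q r with hT
    have hT0 : 0 ≤ T := Finset.sum_nonneg fun q _ => Finset.sum_nonneg fun r _ =>
      mul_nonneg (mul_nonneg (hψ q) (hψ r)) (W_nonneg _ _ _)
    have h1 : ∑ p ∈ P with ¬ ¬ (p.1 ∈ R ∧ p.2 ∈ R), tt y ψ p.1 p.2 ≤ T := by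
      rw [hT, ← Finset.sum_product']
      refine le_trans (b := ∑ p ∈ P with ¬ ¬ (p.1 ∈ R ∧ p.2 ∈ R), ψ p.1 * ψ p.2 * W D p.1 p.2) ?_ ?_
      · refine Finset.sum_le_sum fun p hp => ?_
        rw [mem_filter] at hp
        obtain ⟨h1, h2, h3, h4, h5, h6⟩ := hmem p hp.1
        obtain ⟨-, -, t3⟩ := tt_small' y ψ hψ p.1 p.2 (hX _ h1) (hX _ h2) h4.1
        refine t3.trans (mul_le_mul_of_nonneg_left ?_ (mul_nonneg (hψ _) (hψ _)))
        have hV := V_lt_U h3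
        have hV0 := V_pos (q := p.1) (hX _ h2)
        unfold W
        have hmemp : (U p.1 p.2, V p.1 p.2) ∈ Ico D (2 * D) ×ˢ Ico 1 (2 * D) := by
          rw [mem_product, mem_Ico, mem_Ico]
          refine ⟨⟨h5, h6⟩, by simp only; omega, by simp only; omega⟩
        have heq : p.1 * V p.1 p.2 = p.2 * U p.1 p.2 := by
          have a1 := U_mul p.1 p.2
          have a2 := V_mul p.1 p.2
          calc p.1 * V p.1 p.2 = (U p.1 p.2 * Nat.gcd p.1 p.2) * V p.1 p.2 := by rw [a1]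
            _ = (V p.1 p.2 * Nat.gcd p.1 p.2) * U p.1 p.2 := by ring
            _ = _ := by rw [a2]
        have hs := Finset.single_le_sum (f := fun x : ℕ × ℕ =>
          if p.1 * x.2 = p.2 * x.1 then 1 / ((x.1 : ℝ) * x.2) else 0) (s := Ico D (2 * D) ×ˢ Ico 1 (2 * D))
          (fun x _ => by split_ifs <;> positivity) hmemp
        simp only [heq, if_true] at hs
        exact hs
      · refine Finset.sum_le_sum_of_subset_of_nonneg ?_ ?_
        · intro p hp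
          rw [mem_filter] at hp
          have := hp.2
          push Not at this
          rw [mem_product]; exact this
        · intro p _ _
          exact mul_nonneg (mul_nonneg (hψ _) (hψ _)) (W_nonneg _ _ _)
    refine h1.trans ?_
    have h2 := htr D hD1 R (fun q hq => hX q (mem_filter.1 hq).1) ψ hψ
    rw [← hT] at h2
    have h3 : (∑ q ∈ R, ψ q ^ 2) ^ 32 ≤ 2 ^ 32 := by
      refine pow_le_pow_left₀ (Finset.sum_nonneg fun _ _ => sq_nonneg _) ?_ 32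
      exact (Finset.sum_le_sum_of_subset_of_nonneg (filter_subset _ _)
        (fun _ _ _ => sq_nonneg _)).trans hS
    have h4 : T ^ 32 ≤ 2 ^ 33 * C / (D : ℝ) ^ 8 := by
      calc T ^ 32 ≤ (∑ q ∈ R, ψ q ^ 2) ^ 32 * ((#R : ℝ) * (C / (D : ℝ) ^ 15)) := h2
        _ ≤ 2 ^ 32 * ((2 * (D : ℝ) ^ 7) * (C / (D : ℝ) ^ 15)) := by
            refine mul_le_mul h3 ?_ (by positivity) (by positivity)
            exact mul_le_mul_of_nonneg_right hRcard (by positivity)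
        _ = _ := by field_simp
    set K : ℝ := 1 + 2 ^ 33 * C with hK
    have hK1 : 1 ≤ K := by rw [hK]; have : 0 < 2 ^ 33 * C := by positivity
                           linarith
    have h5 : T ^ 32 ≤ (K * (9 / 10) ^ j) ^ 32 := by
      refine h4.trans ?_
      rw [mul_pow, ← pow_mul, mul_comm j 32, pow_mul]
      have a1 : 2 ^ 33 * C ≤ K ^ 32 := by
        calc 2 ^ 33 * C ≤ K := by rw [hK]; linarith
          _ ≤ K ^ 32 := le_self_pow₀ hK1 (by norm_num)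
      have a2 : 1 / (D : ℝ) ^ 8 ≤ ((9 / 10 : ℝ) ^ 32) ^ j := by
        rw [hD]
        push_cast
        rw [← pow_mul, mul_comm j 8, pow_mul, ← one_div_pow]
        exact pow_le_pow_left₀ (by positivity) (by norm_num) j
      calc 2 ^ 33 * C / (D : ℝ) ^ 8 = 2 ^ 33 * C * (1 / (D : ℝ) ^ 8) := by ring
        _ ≤ _ := mul_le_mul a1 a2 (by positivity) (by positivity)
    exact le_of_pow_le_pow_left₀ (by norm_num) (by positivity) h5

open scoped Classical in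
lemma sum_bad : ∃ K : ℝ, 0 ≤ K ∧ ∀ (y : ℝ × ℝ) (ψ : ℕ → ℝ) (_ : ∀ q, 0 ≤ ψ q) (X : Finset ℕ)
    (_ : ∀ r ∈ X, 0 < r) (_ : ∑ q ∈ X, ψ q ^ 2 ≤ 2),
    ∑ q ∈ X, ∑ r ∈ X with r < q, (if Bad ψ q r then tt y ψ q r else 0) ≤ K := by
  obtain ⟨C, hC, htr⟩ := trace_main
  refine ⟨18432 + 10 * (1 + 2 ^ 33 * C), by positivity, ?_⟩
  intro y ψ hψ X hX hS
  have e : ∑ q ∈ X, ∑ r ∈ X with r < q, (if Bad ψ q r then tt y ψ q r else 0) =
      ∑ p ∈ X ×ˢ X with (p.2 < p.1 ∧ Bad ψ p.1 p.2), tt y ψ p.1 p.2 := by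
    rw [Finset.sum_filter, Finset.sum_product]
    refine Finset.sum_congr rfl fun q _ => ?_
    rw [Finset.sum_filter]
    refine Finset.sum_congr rfl fun r _ => ?_
    by_cases h1 : r < q <;> by_cases h2 : Bad ψ q r <;> simp [h1, h2]
  rw [e]
  have h1 : ∑ p ∈ X ×ˢ X with (p.2 < p.1 ∧ Bad ψ p.1 p.2), tt y ψ p.1 p.2 =
      ∑ j ∈ range (X.sup id + 1), ∑ p ∈ ((X ×ˢ X).filter (fun p => p.2 < p.1 ∧ Bad ψ p.1 p.2)) with
        Nat.log 2 (U p.1 p.2) = j, tt y ψ p.1 p.2 := by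
    rw [Finset.sum_fiberwise_of_maps_to]
    intro p hp
    rw [mem_filter, mem_product] at hp
    rw [mem_range]
    have h2 : U p.1 p.2 ≤ p.1 := Nat.div_le_self _ _
    have h3 : p.1 ≤ X.sup id := Finset.le_sup (f := id) hp.1.1
    have h4 := Nat.log_le_self 2 (U p.1 p.2)
    omega
  rw [h1]
  have h2 : ∀ j ∈ range (X.sup id + 1),
      ∑ p ∈ ((X ×ˢ X).filter (fun p => p.2 < p.1 ∧ Bad ψ p.1 p.2)) with
        Nat.log 2 (U p.1 p.2) = j, tt y ψ p.1 p.2 ≤ 9216 * (1 / 2) ^ j + (1 + 2 ^ 33 * C) * (9 / 10) ^ j := by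
    intro j _
    rw [Finset.filter_filter]
    exact bad_j hC htr y ψ hψ X hX hS j
  refine (Finset.sum_le_sum h2).trans ?_
  rw [Finset.sum_add_distrib, ← Finset.mul_sum, ← Finset.mul_sum]
  have h3 := sum_geometric_two_le (X.sup id + 1)
  have h4 : ∑ j ∈ range (X.sup id + 1), ((9 : ℝ) / 10) ^ j ≤ 10 := by
    have := geom_sum_eq (x := (9 : ℝ) / 10) (by norm_num) (X.sup id + 1)
    rw [this]
    have : (0 : ℝ) < (9 / 10) ^ (X.sup id + 1) := by positivity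
    rw [div_le_iff_of_neg (by norm_num)]
    linarith
  have h5 : (1 + 2 ^ 33 * C) * ∑ j ∈ range (X.sup id + 1), ((9 : ℝ) / 10) ^ j ≤
      (1 + 2 ^ 33 * C) * 10 := mul_le_mul_of_nonneg_left h4 (by positivity)
  linarith

/-- the overlap bound -/
theorem over_bound : ∃ C : ℝ, 0 < C ∧ ∀ (y : ℝ × ℝ) (ψ : ℕ → ℝ) (_ : ∀ q, 0 ≤ ψ q) (X : Finset ℕ)
    (_ : ∀ r ∈ X, 0 < r) (_ : ∑ q ∈ X, ψ q ^ 2 ≤ 2),
    ∑ q ∈ X, ∑ r ∈ X with r < q, tt y ψ q r ≤ C := by
  classical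
  obtain ⟨C0, hC0, h0⟩ := sum_P1
  obtain ⟨K, hK, hKb⟩ := sum_bad
  refine ⟨576 + 2 * C0 + 2 * 10 ^ 12 + K, by positivity, ?_⟩
  intro y ψ hψ X hX hS
  have h1 : ∑ q ∈ X, ∑ r ∈ X with r < q, tt y ψ q r ≤
      ∑ q ∈ X, ∑ r ∈ X with r < q, (144 * (ψ q ^ 2 * ψ r ^ 2) +
        (if P1 y ψ q r then ψ q ^ 2 / (U q r : ℝ) ^ 2 else 0)
      + (if U q r < 1000000 then ψ q ^ 2 else 0) + (if Bad ψ q r then tt y ψ q r else 0)) := by
    refine Finset.sum_le_sum fun q hq => Finset.sum_le_sum fun r hr => ?_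
    rw [mem_filter] at hr
    exact tt_class y ψ hψ q r (hX r hr.1) hr.2
  refine h1.trans ?_
  simp only [Finset.sum_add_distrib]
  have hb := hKb y ψ hψ X hX hS
  have hS0 : 0 ≤ ∑ q ∈ X, ψ q ^ 2 := Finset.sum_nonneg fun _ _ => sq_nonneg _
  have ha : ∑ q ∈ X, ∑ r ∈ X with r < q, 144 * (ψ q ^ 2 * ψ r ^ 2) ≤ 576 := by
    calc ∑ q ∈ X, ∑ r ∈ X with r < q, 144 * (ψ q ^ 2 * ψ r ^ 2)
        ≤ ∑ q ∈ X, ∑ r ∈ X, 144 * (ψ q ^ 2 * ψ r ^ 2) := by
          refine Finset.sum_le_sum fun q _ => ?_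
          exact Finset.sum_le_sum_of_subset_of_nonneg (filter_subset _ _) (fun _ _ _ => by positivity)
      _ = 144 * ((∑ q ∈ X, ψ q ^ 2) * ∑ r ∈ X, ψ r ^ 2) := by
          rw [Finset.sum_mul_sum, Finset.mul_sum]
          refine Finset.sum_congr rfl fun q _ => ?_
          rw [Finset.mul_sum]
      _ ≤ 144 * (2 * 2) := by
          refine mul_le_mul_of_nonneg_left ?_ (by norm_num)
          exact mul_le_mul hS hS hS0 (by norm_num)
      _ = 576 := by norm_num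
  have hc : ∑ q ∈ X, ∑ r ∈ X with r < q, (if P1 y ψ q r then ψ q ^ 2 / (U q r : ℝ) ^ 2 else 0) ≤
      2 * C0 := by
    calc _ ≤ ∑ q ∈ X, C0 * ψ q ^ 2 := Finset.sum_le_sum fun q hq => h0 y ψ X hX q (hX q hq)
      _ = C0 * ∑ q ∈ X, ψ q ^ 2 := by rw [Finset.mul_sum]
      _ ≤ C0 * 2 := mul_le_mul_of_nonneg_left hS hC0
      _ = _ := by ring
  have hd : ∑ q ∈ X, ∑ r ∈ X with r < q, (if U q r < 1000000 then ψ q ^ 2 else 0) ≤ 2 * 10 ^ 12 := by
    calc _ ≤ ∑ q ∈ X, 10 ^ 12 * ψ q ^ 2 := Finset.sum_le_sum fun q hq => sum_small ψ X q (hX q hq)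
      _ = 10 ^ 12 * ∑ q ∈ X, ψ q ^ 2 := by rw [Finset.mul_sum]
      _ ≤ 10 ^ 12 * 2 := mul_le_mul_of_nonneg_left hS (by norm_num)
      _ = _ := by ring
  linarith

end Pool.Agent.H560_K2
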