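import Mathlib
import Pool.Agent.H373R2.T4.DivB

set_option autoImplicit false

namespace Pool.Agent.H560_K2

open Finset

/-- The kernel of a finite family of positive integers with weights `1 / α`. -/
noncomputable def kap {ι : Type} (s : Finset ι) (α : ι → ℕ) (q r : ℕ) : ℝ :=
  ∑ p ∈ s ×ˢ s, if q * α p.2 = r * α p.1 then 1 / ((α p.1 : ℝ) * α p.2) else 0

lemma kap_nonneg {ι : Type} (s : Finset ι) (α : ι → ℕ) (q r : ℕ) : 0 ≤ kap s α q r := by
  refine Finset.sum_nonneg fun p _ => ?_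
  split_ifs <;> positivity

lemma kap_symm {ι : Type} (s : Finset ι) (α : ι → ℕ) (q r : ℕ) : kap s α q r = kap s α r q := by
  unfold kap
  refine Finset.sum_nbij' (fun p => (p.2, p.1)) (fun p => (p.2, p.1)) ?_ ?_ ?_ ?_ ?_
  · intro p hp
    simp only [mem_product] at hp ⊢
    exact ⟨hp.2, hp.1⟩
  · intro p hp
    simp only [mem_product] at hp ⊢
    exact ⟨hp.2, hp.1⟩
  · intro p _; rfl
  · intro p _; rfl
  · intro p _
    by_cases h : q * α p.2 = r * α p.1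
    · rw [if_pos h, if_pos h.symm, mul_comm]
    · rw [if_neg h, if_neg (fun h' => h h'.symm)]

/-- at most one `r1` -/
lemma sum_two_ite_le (R : Finset ℕ) {a a' b b' c c' : ℕ} (ha : 0 < a)
    (wt : ℝ) (hw : 0 ≤ wt) (P : Prop) [Decidable P]
    (hP : ∀ r1 ∈ R, r1 * a = b → r1 * a' = b' → P) :
    ∑ r1 ∈ R, (if r1 * a = b ∧ r1 * a' = b' then wt else 0) ≤ if P then wt else 0 := by
  classical
  by_cases hex : ∃ r0 ∈ R, r0 * a = b ∧ r0 * a' = b'
  · obtain ⟨r0, hr0, h1, h2⟩ := hex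
    rw [if_pos (hP r0 hr0 h1 h2)]
    have : ∀ r1 ∈ R, (if r1 * a = b ∧ r1 * a' = b' then wt else 0) ≤ if r1 = r0 then wt else 0 := by
      intro r1 _
      by_cases h : r1 * a = b ∧ r1 * a' = b'
      · have : r1 = r0 := Nat.eq_of_mul_eq_mul_right ha (h.1.trans h1.symm)
        rw [if_pos h, if_pos this]
      · rw [if_neg h]
        split_ifs
        · exact hw
        · exact le_rfl
    refine (Finset.sum_le_sum this).trans ?_
    rw [Finset.sum_ite_eq', if_pos hr0]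
  · push Not at hex
    have : ∑ r1 ∈ R, (if r1 * a = b ∧ r1 * a' = b' then wt else 0) = 0 := by
      refine Finset.sum_eq_zero fun r1 hr1 => ?_
      rw [if_neg]
      rintro ⟨h1, h2⟩
      exact hex r1 hr1 h1 h2
    rw [this]
    split_ifs
    · exact hw
    · exact le_rfl

lemma kap_step {ι : Type} (s : Finset ι) (α : ι → ℕ) (hα : ∀ x ∈ s, 0 < α x) (R : Finset ℕ)
    (r2 r3 : ℕ) :
    ∑ r1 ∈ R, kap s α r1 r2 * kap s α r1 r3 ≤
      kap (s ×ˢ s) (fun z => α z.1 * α z.2) r2 r3 := by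
  classical
  have e1 : ∑ r1 ∈ R, kap s α r1 r2 * kap s α r1 r3
      = ∑ T ∈ (s ×ˢ s) ×ˢ (s ×ˢ s), ∑ r1 ∈ R,
        (if r1 * α T.1.2 = r2 * α T.1.1 ∧ r1 * α T.2.2 = r3 * α T.2.1 then
          1 / ((α T.1.1 : ℝ) * α T.1.2) * (1 / ((α T.2.1 : ℝ) * α T.2.2)) else 0) := by
    rw [Finset.sum_comm]
    refine Finset.sum_congr rfl fun r1 _ => ?_
    unfold kap
    rw [Finset.sum_mul_sum, ← Finset.sum_product']
    refine Finset.sum_congr rfl fun T _ => ?_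
    by_cases h1 : r1 * α T.1.2 = r2 * α T.1.1 <;> by_cases h2 : r1 * α T.2.2 = r3 * α T.2.1 <;>
      simp [h1, h2]
  rw [e1]
  have e2 : kap (s ×ˢ s) (fun z => α z.1 * α z.2) r2 r3
      = ∑ T ∈ (s ×ˢ s) ×ˢ (s ×ˢ s),
        (if r2 * (α T.1.1 * α T.2.2) = r3 * (α T.2.1 * α T.1.2) then
          1 / ((α T.1.1 : ℝ) * α T.1.2) * (1 / ((α T.2.1 : ℝ) * α T.2.2)) else 0) := by
    unfold kap
    refine Finset.sum_nbij' (fun P => ((P.2.1, P.1.2), (P.1.1, P.2.2)))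
      (fun T => ((T.2.1, T.1.2), (T.1.1, T.2.2))) ?_ ?_ ?_ ?_ ?_
    · intro P hP
      simp only [mem_product] at hP ⊢
      exact ⟨⟨hP.2.1, hP.1.2⟩, ⟨hP.1.1, hP.2.2⟩⟩
    · intro P hP
      simp only [mem_product] at hP ⊢
      exact ⟨⟨hP.2.1, hP.1.2⟩, ⟨hP.1.1, hP.2.2⟩⟩
    · intro P _; rfl
    · intro P _; rfl
    · intro P _
      simp only
      have : 1 / (((α P.1.1 * α P.1.2 : ℕ) : ℝ) * ((α P.2.1 * α P.2.2 : ℕ) : ℝ))
          = 1 / ((α P.2.1 : ℝ) * α P.1.2) * (1 / ((α P.1.1 : ℝ) * α P.2.2)) := by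
        push_cast
        rw [one_div_mul_one_div]
        congr 1
        ring
      rw [this]
  rw [e2]
  refine Finset.sum_le_sum fun T hT => ?_
  simp only [mem_product] at hT
  refine sum_two_ite_le (a := α T.1.2) (a' := α T.2.2) (b := r2 * α T.1.1) (b' := r3 * α T.2.1)
    (c := 0) (c' := 0) R (hα _ hT.1.2) _ (by positivity) _ ?_
  intro r1 _ h1 h2
  calc r2 * (α T.1.1 * α T.2.2) = (r2 * α T.1.1) * α T.2.2 := by ring
    _ = (r1 * α T.1.2) * α T.2.2 := by rw [h1]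
    _ = (r1 * α T.2.2) * α T.1.2 := by ring
    _ = (r3 * α T.2.1) * α T.1.2 := by rw [h2]
    _ = _ := by ring

/-- one application of Cauchy-Schwarz -/
lemma cs_step {ι : Type} (s : Finset ι) (α : ι → ℕ) (hα : ∀ x ∈ s, 0 < α x) (R : Finset ℕ)
    (f : ℕ → ℝ) (hf : ∀ q, 0 ≤ f q) :
    (∑ q ∈ R, ∑ r ∈ R, f q * f r * kap s α q r) ^ 2 ≤
      (∑ q ∈ R, f q ^ 2) *
        ∑ q ∈ R, ∑ r ∈ R, f q * f r * kap (s ×ˢ s) (fun z => α z.1 * α z.2) q r := by
  have e0 : ∑ q ∈ R, ∑ r ∈ R, f q * f r * kap s α q r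
      = ∑ q ∈ R, f q * (∑ r ∈ R, f r * kap s α q r) := by
    refine Finset.sum_congr rfl fun q _ => ?_
    rw [Finset.mul_sum]
    exact Finset.sum_congr rfl fun r _ => by ring
  rw [e0]
  refine (Finset.sum_mul_sq_le_sq_mul_sq R f _).trans ?_
  refine mul_le_mul_of_nonneg_left ?_ (Finset.sum_nonneg fun q _ => sq_nonneg _)
  have e1 : ∑ q ∈ R, (∑ r ∈ R, f r * kap s α q r) ^ 2
      = ∑ r ∈ R, ∑ r' ∈ R, f r * f r' * ∑ q ∈ R, kap s α q r * kap s α q r' := by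
    have : ∀ q ∈ R, (∑ r ∈ R, f r * kap s α q r) ^ 2
        = ∑ r ∈ R, ∑ r' ∈ R, f r * f r' * (kap s α q r * kap s α q r') := by
      intro q _
      rw [sq, Finset.sum_mul_sum]
      refine Finset.sum_congr rfl fun r _ => Finset.sum_congr rfl fun r' _ => by ring
    rw [Finset.sum_congr rfl this, Finset.sum_comm]
    refine Finset.sum_congr rfl fun r _ => ?_
    rw [Finset.sum_comm]
    refine Finset.sum_congr rfl fun r' _ => ?_
    rw [Finset.mul_sum]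
  rw [e1]
  refine Finset.sum_le_sum fun r _ => Finset.sum_le_sum fun r' _ => ?_
  exact mul_le_mul_of_nonneg_left (kap_step s α hα R r r') (mul_nonneg (hf _) (hf _))

/-- the energy of a family -/
noncomputable def en {ι : Type} (s : Finset ι) (α : ι → ℕ) : ℝ :=
  ∑ p ∈ s ×ˢ s, if α p.2 = α p.1 then 1 / ((α p.1 : ℝ) * α p.2) else 0

lemma en_nonneg {ι : Type} (s : Finset ι) (α : ι → ℕ) : 0 ≤ en s α := by
  refine Finset.sum_nonneg fun p _ => ?_
  split_ifs <;> positivity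

/-- the last Cauchy-Schwarz, using the number of elements of `R` -/
lemma cs_last {ι : Type} (s : Finset ι) (α : ι → ℕ) (hα : ∀ x ∈ s, 0 < α x) (R : Finset ℕ)
    (hR : ∀ q ∈ R, 0 < q) (f : ℕ → ℝ) :
    (∑ q ∈ R, ∑ r ∈ R, f q * f r * kap s α q r) ^ 2 ≤
      (∑ q ∈ R, f q ^ 2) ^ 2 * ((#R : ℝ) * en (s ×ˢ s) (fun z => α z.1 * α z.2)) := by
  have e0 : ∑ q ∈ R, ∑ r ∈ R, f q * f r * kap s α q r
      = ∑ z ∈ R ×ˢ R, (f z.1 * f z.2) * kap s α z.1 z.2 := by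
    rw [Finset.sum_product]
  rw [e0]
  refine (Finset.sum_mul_sq_le_sq_mul_sq (R ×ˢ R) _ _).trans ?_
  have e1 : ∑ z ∈ R ×ˢ R, (f z.1 * f z.2) ^ 2 = (∑ q ∈ R, f q ^ 2) ^ 2 := by
    rw [sq (∑ q ∈ R, f q ^ 2), Finset.sum_mul_sum, Finset.sum_product]
    refine Finset.sum_congr rfl fun r _ => Finset.sum_congr rfl fun r' _ => by ring
  rw [e1]
  refine mul_le_mul_of_nonneg_left ?_ (sq_nonneg _)
  rw [Finset.sum_product]
  have hrow : ∀ q ∈ R, ∑ r ∈ R, kap s α q r ^ 2 ≤ en (s ×ˢ s) (fun z => α z.1 * α z.2) := by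
    intro q hq
    have e3 : ∑ r ∈ R, kap s α q r ^ 2 = ∑ r ∈ R, kap s α r q * kap s α r q := by
      refine Finset.sum_congr rfl fun r _ => ?_
      rw [kap_symm s α q r, sq]
    rw [e3]
    refine (kap_step s α hα R q q).trans ?_
    unfold kap en
    refine Finset.sum_le_sum fun p _ => ?_
    by_cases h : q * (α p.2.1 * α p.2.2) = q * (α p.1.1 * α p.1.2)
    · rw [if_pos h, if_pos (Nat.eq_of_mul_eq_mul_left (hR q hq) h)]
    · rw [if_neg h]
      split_ifs <;> positivity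
  calc ∑ q ∈ R, ∑ r ∈ R, kap s α q r ^ 2
      ≤ ∑ q ∈ R, en (s ×ˢ s) (fun z => α z.1 * α z.2) := Finset.sum_le_sum hrow
    _ = _ := by rw [Finset.sum_const, nsmul_eq_mul]

end Pool.Agent.H560_K2
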