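import Pool.Agent.H560_K2.Trace

set_option autoImplicit false

namespace Pool.Agent.H560_K2

open Finset

/-- The base kernel: `q / r = u / v` with `u ∈ [D, 2D)`, `v ∈ [1, 2D)`. -/
noncomputable def W (D q r : ℕ) : ℝ :=
  ∑ p ∈ Ico D (2 * D) ×ˢ Ico 1 (2 * D), if q * p.2 = r * p.1 then 1 / ((p.1 : ℝ) * p.2) else 0

lemma W_nonneg (D q r : ℕ) : 0 ≤ W D q r := by
  refine Finset.sum_nonneg fun p _ => ?_
  split_ifs <;> positivity

lemma W_step (D : ℕ) (R : Finset ℕ) (r r' : ℕ) :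
    ∑ q ∈ R, W D q r * W D q r' ≤
      kap (Ico D (2 * D) ×ˢ Ico 1 (2 * D)) (fun p => p.1 * p.2) r r' := by
  classical
  set s := Ico D (2 * D) ×ˢ Ico 1 (2 * D) with hs
  have e1 : ∑ q ∈ R, W D q r * W D q r'
      = ∑ T ∈ s ×ˢ s, ∑ q ∈ R,
        (if q * T.1.2 = r * T.1.1 ∧ q * T.2.2 = r' * T.2.1 then
          1 / ((T.1.1 : ℝ) * T.1.2) * (1 / ((T.2.1 : ℝ) * T.2.2)) else 0) := by
    rw [Finset.sum_comm]
    refine Finset.sum_congr rfl fun q _ => ?_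
    unfold W
    rw [Finset.sum_mul_sum, ← Finset.sum_product']
    refine Finset.sum_congr rfl fun T _ => ?_
    by_cases h1 : q * T.1.2 = r * T.1.1 <;> by_cases h2 : q * T.2.2 = r' * T.2.1 <;>
      simp [h1, h2]
  rw [e1]
  have e2 : kap s (fun p => p.1 * p.2) r r'
      = ∑ T ∈ s ×ˢ s,
        (if r * (T.1.1 * T.2.2) = r' * (T.2.1 * T.1.2) then
          1 / ((T.1.1 : ℝ) * T.1.2) * (1 / ((T.2.1 : ℝ) * T.2.2)) else 0) := by
    unfold kap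
    refine Finset.sum_nbij' (fun P => ((P.2.1, P.1.2), (P.1.1, P.2.2)))
      (fun T => ((T.2.1, T.1.2), (T.1.1, T.2.2))) ?_ ?_ ?_ ?_ ?_
    · intro P hP
      simp only [hs, mem_product] at hP ⊢
      exact ⟨⟨hP.2.1, hP.1.2⟩, ⟨hP.1.1, hP.2.2⟩⟩
    · intro P hP
      simp only [hs, mem_product] at hP ⊢
      exact ⟨⟨hP.2.1, hP.1.2⟩, ⟨hP.1.1, hP.2.2⟩⟩
    · intro P _; rfl
    · intro P _; rfl
    · intro P _
      simp only
      have : 1 / (((P.1.1 * P.1.2 : ℕ) : ℝ) * ((P.2.1 * P.2.2 : ℕ) : ℝ))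
          = 1 / ((P.2.1 : ℝ) * P.1.2) * (1 / ((P.1.1 : ℝ) * P.2.2)) := by
        push_cast
        rw [one_div_mul_one_div]
        congr 1
        ring
      rw [this]
  rw [e2]
  refine Finset.sum_le_sum fun T hT => ?_
  simp only [hs, mem_product, mem_Ico] at hT
  refine sum_two_ite_le (a := T.1.2) (a' := T.2.2) (b := r * T.1.1) (b' := r' * T.2.1)
    (c := 0) (c' := 0) R (by omega) _ (by positivity) _ ?_
  intro r1 _ h1 h2
  calc r * (T.1.1 * T.2.2) = (r * T.1.1) * T.2.2 := by ring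
    _ = (r1 * T.1.2) * T.2.2 := by rw [h1]
    _ = (r1 * T.2.2) * T.1.2 := by ring
    _ = (r' * T.2.1) * T.1.2 := by rw [h2]
    _ = _ := by ring

lemma W_cs (D : ℕ) (R : Finset ℕ) (f : ℕ → ℝ) (hf : ∀ q, 0 ≤ f q) :
    (∑ q ∈ R, ∑ r ∈ R, f q * f r * W D q r) ^ 2 ≤
      (∑ q ∈ R, f q ^ 2) *
        ∑ q ∈ R, ∑ r ∈ R, f q * f r *
          kap (Ico D (2 * D) ×ˢ Ico 1 (2 * D)) (fun p => p.1 * p.2) q r := by
  have e0 : ∑ q ∈ R, ∑ r ∈ R, f q * f r * W D q r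
      = ∑ q ∈ R, f q * (∑ r ∈ R, f r * W D q r) := by
    refine Finset.sum_congr rfl fun q _ => ?_
    rw [Finset.mul_sum]
    exact Finset.sum_congr rfl fun r _ => by ring
  rw [e0]
  refine (Finset.sum_mul_sq_le_sq_mul_sq R f _).trans ?_
  refine mul_le_mul_of_nonneg_left ?_ (Finset.sum_nonneg fun q _ => sq_nonneg _)
  have e1 : ∑ q ∈ R, (∑ r ∈ R, f r * W D q r) ^ 2
      = ∑ r ∈ R, ∑ r' ∈ R, f r * f r' * ∑ q ∈ R, W D q r * W D q r' := by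
    have : ∀ q ∈ R, (∑ r ∈ R, f r * W D q r) ^ 2
        = ∑ r ∈ R, ∑ r' ∈ R, f r * f r' * (W D q r * W D q r') := by
      intro q _
      rw [sq, Finset.sum_mul_sum]
      refine Finset.sum_congr rfl fun r _ => Finset.sum_congr rfl fun r' _ => by ring
    rw [Finset.sum_congr rfl this, Finset.sum_comm]
    refine Finset.sum_congr rfl fun r _ => ?_
    rw [Finset.sum_comm]
    refine Finset.sum_congr rfl fun r' _ => ?_
    rw [Finset.mul_sum]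
  rw [e1]
  refine Finset.sum_le_sum fun r _ => Finset.sum_le_sum fun r' _ => ?_
  exact mul_le_mul_of_nonneg_left (W_step D R r r') (mul_nonneg (hf _) (hf _))

/-- second moment of the weights -/
noncomputable def m2 {ι : Type} (s : Finset ι) (α : ι → ℕ) : ℝ := ∑ x ∈ s, 1 / (α x : ℝ) ^ 2

lemma m2_prod {ι : Type} (s : Finset ι) (α : ι → ℕ) :
    m2 (s ×ˢ s) (fun z => α z.1 * α z.2) = m2 s α ^ 2 := by
  unfold m2
  rw [sq, Finset.sum_mul_sum, Finset.sum_product]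
  refine Finset.sum_congr rfl fun x _ => Finset.sum_congr rfl fun x' _ => ?_
  push_cast
  rw [mul_pow, one_div_mul_one_div]

lemma sum_inv_sq_le (n : ℕ) : ∑ v ∈ Ico 1 (n + 2), (1 : ℝ) / (v : ℝ) ^ 2 ≤ 2 - 1 / ((n : ℝ) + 1) := by
  induction n with
  | zero => norm_num
  | succ n ih =>
    rw [Finset.sum_Ico_succ_top (by omega)]
    have h3 : (1 : ℝ) / (((n + 1 + 1 : ℕ) : ℝ)) ^ 2 ≤ 1 / ((n : ℝ) + 1) - 1 / (((n + 1 : ℕ) : ℝ) + 1) := by
      have hn : (0 : ℝ) ≤ n := by positivity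
      push_cast
      rw [div_sub_div _ _ (by positivity) (by positivity), div_le_div_iff₀ (by positivity) (by positivity)]
      nlinarith
    linarith

lemma sum_inv_sq_le_two (n : ℕ) : ∑ v ∈ Ico 1 n, (1 : ℝ) / (v : ℝ) ^ 2 ≤ 2 := by
  rcases Nat.lt_or_ge n 2 with h | h
  · have : Ico 1 n = ∅ := by
      rw [Ico_eq_empty_iff]; omega
    rw [this]; simp
  · obtain ⟨m, rfl⟩ : ∃ m, n = m + 2 := ⟨n - 2, by omega⟩
    have := sum_inv_sq_le m
    have h4 : (0 : ℝ) < 1 / ((m : ℝ) + 1) := by positivity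
    linarith

lemma m2_base (D : ℕ) (hD : 1 ≤ D) :
    m2 (Ico D (2 * D) ×ˢ Ico 1 (2 * D)) (fun p => p.1 * p.2) ≤ 2 / (D : ℝ) := by
  have hDr : (1 : ℝ) ≤ D := by exact_mod_cast hD
  unfold m2
  have e : ∑ p ∈ Ico D (2 * D) ×ˢ Ico 1 (2 * D), (1 : ℝ) / (((p.1 * p.2 : ℕ) : ℝ)) ^ 2
      = (∑ u ∈ Ico D (2 * D), (1 : ℝ) / (u : ℝ) ^ 2) * (∑ v ∈ Ico 1 (2 * D), (1 : ℝ) / (v : ℝ) ^ 2) := by
    rw [Finset.sum_mul_sum, Finset.sum_product]
    refine Finset.sum_congr rfl fun x _ => Finset.sum_congr rfl fun x' _ => ?_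
    push_cast
    rw [mul_pow, one_div_mul_one_div]
  rw [e]
  have h1 : ∑ u ∈ Ico D (2 * D), (1 : ℝ) / (u : ℝ) ^ 2 ≤ 1 / (D : ℝ) := by
    have : ∀ u ∈ Ico D (2 * D), (1 : ℝ) / (u : ℝ) ^ 2 ≤ 1 / (D : ℝ) ^ 2 := by
      intro u hu
      rw [mem_Ico] at hu
      have : (D : ℝ) ≤ u := by exact_mod_cast hu.1
      apply one_div_le_one_div_of_le (by positivity)
      exact pow_le_pow_left₀ (by positivity) this 2
    refine (Finset.sum_le_sum this).trans ?_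
    rw [Finset.sum_const, Nat.card_Ico, nsmul_eq_mul]
    have e2 : ((2 * D - D : ℕ) : ℝ) = D := by
      have : 2 * D - D = D := by omega
      rw [this]
    rw [e2]
    apply le_of_eq
    field_simp
  have h3 := sum_inv_sq_le_two (2 * D)
  calc (∑ u ∈ Ico D (2 * D), (1 : ℝ) / (u : ℝ) ^ 2) * (∑ v ∈ Ico 1 (2 * D), (1 : ℝ) / (v : ℝ) ^ 2)
      ≤ (1 / (D : ℝ)) * 2 :=
        mul_le_mul h1 h3 (Finset.sum_nonneg fun _ _ => by positivity) (by positivity)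
    _ = 2 / D := by ring

lemma fiber_prod {ι : Type} (s : Finset ι) (α : ι → ℕ) {C θ Cτ η : ℝ} (hC : 0 ≤ C)
    (hfib : ∀ n : ℕ, 0 < n → (#{x ∈ s | α x = n} : ℝ) ≤ C * (n : ℝ) ^ θ)
    (hτ : ∀ n : ℕ, n ≠ 0 → (n.divisors.card : ℝ) ≤ Cτ * (n : ℝ) ^ η) (n : ℕ) (hn : 0 < n) :
    (#{z ∈ s ×ˢ s | α z.1 * α z.2 = n} : ℝ) ≤ (Cτ * C ^ 2) * (n : ℝ) ^ (η + θ) := by
  classical
  have hsub : {z ∈ s ×ˢ s | α z.1 * α z.2 = n} ⊆
      n.divisors.biUnion (fun d => {x ∈ s | α x = d} ×ˢ {x ∈ s | α x = n / d}) := by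
    intro z hz
    rw [mem_filter, mem_product] at hz
    rw [mem_biUnion]
    have hpos : 0 < α z.1 := by
      rcases Nat.eq_zero_or_pos (α z.1) with h | h
      · rw [h, zero_mul] at hz; omega
      · exact h
    refine ⟨α z.1, Nat.mem_divisors.2 ⟨⟨α z.2, hz.2.symm⟩, hn.ne'⟩, ?_⟩
    rw [mem_product, mem_filter, mem_filter]
    refine ⟨⟨hz.1.1, rfl⟩, hz.1.2, ?_⟩
    rw [← hz.2, Nat.mul_div_cancel_left _ hpos]
  have hnr : (0 : ℝ) < n := by exact_mod_cast hn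
  calc (#{z ∈ s ×ˢ s | α z.1 * α z.2 = n} : ℝ)
      ≤ (#(n.divisors.biUnion (fun d => {x ∈ s | α x = d} ×ˢ {x ∈ s | α x = n / d})) : ℝ) := by
        exact_mod_cast card_le_card hsub
    _ ≤ ∑ d ∈ n.divisors, (#({x ∈ s | α x = d} ×ˢ {x ∈ s | α x = n / d}) : ℝ) := by
        exact_mod_cast card_biUnion_le
    _ ≤ ∑ d ∈ n.divisors, C ^ 2 * (n : ℝ) ^ θ := by
        refine Finset.sum_le_sum fun d hd => ?_
        rw [Nat.mem_divisors] at hd
        have hd0 : 0 < d := Nat.pos_of_dvd_of_pos hd.1 hn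
        have hnd0 : 0 < n / d := Nat.div_pos (Nat.le_of_dvd hn hd.1) hd0
        rw [card_product]
        push_cast
        have h1 := hfib d hd0
        have h2 := hfib (n / d) hnd0
        have h3 : (d : ℝ) ^ θ * ((n / d : ℕ) : ℝ) ^ θ = (n : ℝ) ^ θ := by
          rw [← Real.mul_rpow (by positivity) (by positivity)]
          congr 1
          rw [← Nat.cast_mul, Nat.mul_div_cancel' hd.1]
        calc (#{x ∈ s | α x = d} : ℝ) * (#{x ∈ s | α x = n / d} : ℝ)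
            ≤ (C * (d : ℝ) ^ θ) * (C * ((n / d : ℕ) : ℝ) ^ θ) :=
              mul_le_mul h1 h2 (by positivity) (by positivity)
          _ = C ^ 2 * ((d : ℝ) ^ θ * ((n / d : ℕ) : ℝ) ^ θ) := by ring
          _ = _ := by rw [h3]
    _ = (n.divisors.card : ℝ) * (C ^ 2 * (n : ℝ) ^ θ) := by rw [Finset.sum_const, nsmul_eq_mul]
    _ ≤ (Cτ * (n : ℝ) ^ η) * (C ^ 2 * (n : ℝ) ^ θ) :=
        mul_le_mul_of_nonneg_right (hτ n hn.ne') (by positivity)
    _ = (Cτ * C ^ 2) * ((n : ℝ) ^ η * (n : ℝ) ^ θ) := by ring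
    _ = _ := by rw [← Real.rpow_add hnr]

lemma fiber_base (D : ℕ) {Cτ η : ℝ}
    (hτ : ∀ n : ℕ, n ≠ 0 → (n.divisors.card : ℝ) ≤ Cτ * (n : ℝ) ^ η) (n : ℕ) (hn : 0 < n) :
    (#{x ∈ Ico D (2 * D) ×ˢ Ico 1 (2 * D) | x.1 * x.2 = n} : ℝ) ≤ Cτ * (n : ℝ) ^ η := by
  classical
  refine le_trans ?_ (hτ n hn.ne')
  have : #{x ∈ Ico D (2 * D) ×ˢ Ico 1 (2 * D) | x.1 * x.2 = n} ≤ #n.divisors := by
    refine card_le_card_of_injOn (fun x => x.1) ?_ ?_
    · intro x hx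
      rw [mem_coe, mem_filter] at hx
      rw [mem_coe, Nat.mem_divisors]
      exact ⟨⟨x.2, hx.2.symm⟩, hn.ne'⟩
    · intro x hx y hy hxy
      rw [mem_coe, mem_filter, mem_product, mem_Ico, mem_Ico] at hx hy
      have h1 : x.1 = y.1 := hxy
      have hpos : 0 < x.1 := by
        rcases Nat.eq_zero_or_pos x.1 with h | h
        · have := hx.2
          rw [h, zero_mul] at this; omega
        · exact h
      refine Prod.ext h1 (Nat.eq_of_mul_eq_mul_left hpos ?_)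
      rw [hx.2, h1, hy.2]
  exact_mod_cast this

lemma en_le {ι : Type} (s : Finset ι) (α : ι → ℕ) {C θ Z : ℝ} (hC : 0 ≤ C) (hθ : 0 ≤ θ)
    (hα : ∀ x ∈ s, 0 < α x ∧ (α x : ℝ) ≤ Z)
    (hfib : ∀ n : ℕ, 0 < n → (#{x ∈ s | α x = n} : ℝ) ≤ C * (n : ℝ) ^ θ) :
    en s α ≤ C * Z ^ θ * m2 s α := by
  classical
  unfold en m2
  rw [Finset.sum_product, Finset.mul_sum]
  refine Finset.sum_le_sum fun x hx => ?_
  obtain ⟨h0, h1⟩ := hα x hx
  have h0r : (0 : ℝ) < α x := by exact_mod_cast h0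
  have e : ∑ y ∈ s, (if α (x, y).2 = α (x, y).1 then 1 / ((α (x, y).1 : ℝ) * α (x, y).2) else 0)
      = (#{y ∈ s | α y = α x} : ℝ) * (1 / (α x : ℝ) ^ 2) := by
    rw [← Finset.sum_filter]
    have : ∀ y ∈ s.filter (fun y => α (x, y).2 = α (x, y).1),
        1 / ((α (x, y).1 : ℝ) * α (x, y).2) = 1 / (α x : ℝ) ^ 2 := by
      intro y hy
      rw [mem_filter] at hy
      simp only at hy ⊢
      rw [hy.2, sq]
    rw [Finset.sum_congr rfl this, Finset.sum_const, nsmul_eq_mul]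
  rw [e]
  refine mul_le_mul_of_nonneg_right ?_ (by positivity)
  refine (hfib _ h0).trans ?_
  refine mul_le_mul_of_nonneg_left ?_ hC
  exact Real.rpow_le_rpow h0r.le h1 hθ

end Pool.Agent.H560_K2
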